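import Pool.Agent.X168.BU.Blow

/-! Holomorphic coordinates of the blow-up near the two lines, and rotation invariant forms. -/

set_option autoImplicit false

open Set Filter Topology
open scoped Manifold ContDiff ComplexConjugate

noncomputable section

namespace Pool.Agent.X168.HA

open Pool.Agent.X168.BU

variable {d : ℕ}

/-- a real linear map which commutes with the multiplication by `i` -/
def CommI (L : V d →L[ℝ] V d) : Prop := ∀ x, L (Complex.I • x) = Complex.I • L x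

theorem commI_of_diff {g : V d → V d} {z : V d} (h : DifferentiableAt ℂ g z) :
    CommI (fderiv ℝ g z) := by
  intro x
  rw [h.fderiv_restrictScalars ℝ]
  simp

theorem diff_update {f : V d → V d} {g : V d → ℂ} {l : Fin d} {z : V d}
    (hf : DifferentiableAt ℂ f z) (hg : DifferentiableAt ℂ g z) :
    DifferentiableAt ℂ (fun x => Function.update (f x) l (g x)) z := by
  rw [differentiableAt_pi]
  intro j
  by_cases hj : j = l
  · subst hj; simpa using hg
  · simpa [Function.update_of_ne hj] using (differentiableAt_pi.1 hf) j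

theorem diff_coord (k : Fin d) (z : V d) : DifferentiableAt ℂ (fun c : V d => c k) z :=
  differentiableAt_apply k z

theorem diff_Zk (k : Fin d) (z : V d) : DifferentiableAt ℂ (Zk k : V d → V d) z :=
  diff_update differentiableAt_id (differentiableAt_const _)

theorem diff_Zkl (k l : Fin d) (z : V d) : DifferentiableAt ℂ (fun c : V d => Zk k c l) z :=
  (differentiableAt_pi.1 (diff_Zk k z)) l

/-! ### The coordinates near the exceptional line -/

/-- the blow-down map `c ↦ c_k (c₁, …, 1, …, c_d)` -/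
def be (k : Fin d) (c : V d) : V d := c k • Zk k c

theorem diff_be (k : Fin d) (z : V d) : DifferentiableAt ℂ (be k : V d → V d) z :=
  (diff_coord k z).smul (diff_Zk k z)

theorem contDiff_be (k : Fin d) : ContDiff ℝ ∞ (be k : V d → V d) :=
  (contDiff_apply ℝ ℂ k).smul (contDiff_Zk k)

theorem be_ne {k : Fin d} {c : V d} (hc : c k ≠ 0) : be k c ≠ 0 := smul_ne_zero hc (Zk_ne k c)

theorem be_zero {k : Fin d} {c : V d} (hc : c k = 0) : be k c = 0 := by
  unfold be; rw [hc, zero_smul]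

theorem fderiv_be (k : Fin d) (c h : V d) :
    fderiv ℝ (be k) c h = c k • Pk k h + h k • Zk k c := by
  have h1 : HasFDerivAt (fun c : V d => c k)
      (ContinuousLinearMap.proj (R := ℝ) (φ := fun _ : Fin d => ℂ) k) c := hasFDerivAt_apply k c
  have h2 : HasFDerivAt (fun c : V d => c k • Zk k c) _ c :=
    HasFDerivAt.smul (𝕜' := ℂ) h1 (hasFDerivAt_Zk k c)
  have h3 : (be k : V d → V d) = fun c => c k • Zk k c := rfl
  rw [h3, h2.fderiv]
  simp

/-- the change from the holomorphic coordinates to the affine coordinates of `ℂPᵈ` -/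
def Tk (k : Fin d) (c : V d) : V d := Function.update c k ((nsq (Zk k c) : ℂ) * conj (c k))

/-- the inverse of `Tk` -/
def Tki (k : Fin d) (c : V d) : V d := Function.update c k (conj (c k) / (nsq (Zk k c) : ℂ))

theorem Zk_update (k : Fin d) (c : V d) (x : ℂ) : Zk k (Function.update c k x) = Zk k c := by
  unfold Zk
  rw [Function.update_idem]

theorem Zk_Tk (k : Fin d) (c : V d) : Zk k (Tk k c) = Zk k c := Zk_update _ _ _

theorem Zk_Tki (k : Fin d) (c : V d) : Zk k (Tki k c) = Zk k c := Zk_update _ _ _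

theorem nz (k : Fin d) (c : V d) : (nsq (Zk k c) : ℂ) ≠ 0 := by
  exact_mod_cast (nsq_pos (Zk_ne k c)).ne'

theorem Tki_Tk (k : Fin d) (c : V d) : Tki k (Tk k c) = c := by
  have h1 : Tki k (Tk k c) = Function.update (Tk k c) k
      (conj (Tk k c k) / (nsq (Zk k (Tk k c)) : ℂ)) := rfl
  rw [h1, Zk_Tk]
  have h2 : Tk k c k = (nsq (Zk k c) : ℂ) * conj (c k) := by simp [Tk]
  rw [h2]
  have h3 : conj ((nsq (Zk k c) : ℂ) * conj (c k)) / (nsq (Zk k c) : ℂ) = c k := by
    rw [map_mul, Complex.conj_conj, Complex.conj_ofReal]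
    have := nz k c
    field_simp
  rw [h3]
  unfold Tk
  rw [Function.update_idem, Function.update_eq_self]

theorem Tk_Tki (k : Fin d) (c : V d) : Tk k (Tki k c) = c := by
  have h1 : Tk k (Tki k c) = Function.update (Tki k c) k
      ((nsq (Zk k (Tki k c)) : ℂ) * conj (Tki k c k)) := rfl
  rw [h1, Zk_Tki]
  have h2 : Tki k c k = conj (c k) / (nsq (Zk k c) : ℂ) := by simp [Tki]
  rw [h2]
  have h3 : (nsq (Zk k c) : ℂ) * conj (conj (c k) / (nsq (Zk k c) : ℂ)) = c k := by
    rw [map_div₀, Complex.conj_conj, Complex.conj_ofReal]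
    have := nz k c
    field_simp
  rw [h3]
  unfold Tki
  rw [Function.update_idem, Function.update_eq_self]

theorem contDiff_Tk (k : Fin d) : ContDiff ℝ ∞ (Tk k : V d → V d) := by
  have h1 : ContDiff ℝ ∞ (fun c : V d => conj (c k)) :=
    Complex.conjCLE.contDiff.comp (contDiff_apply ℝ ℂ k)
  have h2 : ContDiff ℝ ∞ (fun c : V d => (nsq (Zk k c) : ℂ)) :=
    Complex.ofRealCLM.contDiff.comp (contDiff_nsq.comp (contDiff_Zk k))
  rw [← contDiffOn_univ]
  exact contDiff_update contDiffOn_id (h2.mul h1).contDiffOn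

theorem contDiff_Tki (k : Fin d) : ContDiff ℝ ∞ (Tki k : V d → V d) := by
  rw [← contDiffOn_univ]
  exact contDiff_update contDiffOn_id (contDiff_tk k).contDiffOn

theorem ld_Tk (k : Fin d) (c : V d) : LD d (Tk k : V d → V d) c :=
  ⟨(contDiff_Tk k).contDiffAt.contMDiffAt, Tki k, (contDiff_Tki k).contDiffAt.contMDiffAt,
    Tki_Tk k c, Eventually.of_forall (Tk_Tki k), Eventually.of_forall (Tki_Tk k)⟩

theorem bk_Tk (k : Fin d) (c : V d) : bk k (Tk k c) = be k c := by
  rw [bk_eq, Zk_Tk]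
  have h2 : Tk k c k = (nsq (Zk k c) : ℂ) * conj (c k) := by simp [Tk]
  have h3 : conj ((nsq (Zk k c) : ℂ) * conj (c k)) / (nsq (Zk k c) : ℂ) = c k := by
    rw [map_mul, Complex.conj_conj, Complex.conj_ofReal]
    have := nz k c
    field_simp
  rw [h2, h3]
  rfl

theorem Tk_ne {k : Fin d} {c : V d} : Tk k c k ≠ 0 ↔ c k ≠ 0 := by
  have h2 : Tk k c k = (nsq (Zk k c) : ℂ) * conj (c k) := by simp [Tk]
  rw [h2, mul_ne_zero_iff]
  exact ⟨fun h => by simpa using h.2, fun h => ⟨nz k c, by simpa using h⟩⟩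

/-- transition maps near the exceptional line -/
def HE (k l : Fin d) (c : V d) : V d :=
  Function.update ((Zk k c l)⁻¹ • Zk k c) l (c k * Zk k c l)

theorem diff_HE {k l : Fin d} {c : V d} (h : Zk k c l ≠ 0) :
    DifferentiableAt ℂ (HE k l : V d → V d) c :=
  diff_update (((diff_Zkl k l c).inv h).smul (diff_Zk k c)) ((diff_coord k c).mul (diff_Zkl k l c))

theorem contDiffAt_HE {k l : Fin d} {c : V d} (h : Zk k c l ≠ 0) :
    ContDiffAt ℝ ∞ (HE k l : V d → V d) c := by
  have h0 : ContDiff ℝ ∞ (fun c : V d => Zk k c l) :=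
    (contDiff_apply ℝ ℂ l).comp (contDiff_Zk k)
  have h1 : ContDiffAt ℝ ∞ (fun c : V d => (Zk k c l)⁻¹ • Zk k c) c :=
    (h0.contDiffAt.inv h).smul (contDiff_Zk k).contDiffAt
  have h2 : ContDiffAt ℝ ∞ (fun c : V d => c k * Zk k c l) c :=
    ((contDiff_apply ℝ ℂ k).mul h0).contDiffAt
  rw [contDiffAt_pi]
  intro j
  by_cases hj : j = l
  · subst hj
    simpa [HE] using h2
  · simpa [HE, Function.update_of_ne hj] using (contDiffAt_pi.1 h1) j

theorem diff_Hk {k l : Fin d} {c : V d} (h : Zk k c l ≠ 0) :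
    DifferentiableAt ℂ (Hk k l : V d → V d) c :=
  diff_update (((diff_Zkl k l c).inv h).smul (diff_Zk k c))
    (((diff_Zkl k l c).inv h).mul (diff_coord k c))

theorem Zk_HE {k l : Fin d} {c : V d} (h : Zk k c l ≠ 0) :
    Zk l (HE k l c) = (Zk k c l)⁻¹ • Zk k c := by
  unfold HE
  rw [Zk_update]
  unfold Zk
  rw [Function.update_eq_iff]
  refine ⟨?_, fun j hj => rfl⟩
  change (1 : ℂ) = (Zk k c l)⁻¹ * Zk k c l
  exact (inv_mul_cancel₀ h).symm

theorem be_HE {k l : Fin d} {c : V d} (h : Zk k c l ≠ 0) : be l (HE k l c) = be k c := by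
  unfold be
  rw [Zk_HE h]
  have h1 : HE k l c l = c k * Zk k c l := by simp [HE]
  rw [h1, smul_smul]
  congr 1
  field_simp

theorem Tk_HE {k l : Fin d} {c : V d} (h : Zk k c l ≠ 0) :
    Tk l (HE k l c) = Hk k l (Tk k c) := by
  have e1 : Tk l (HE k l c) = Function.update (HE k l c) l
      ((nsq (Zk l (HE k l c)) : ℂ) * conj (HE k l c l)) := rfl
  have e2 : Hk k l (Tk k c) = Function.update ((Zk k (Tk k c) l)⁻¹ • Zk k (Tk k c)) l
      ((Zk k (Tk k c) l)⁻¹ * Tk k c k) := rfl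
  have h1 : HE k l c l = c k * Zk k c l := by simp [HE]
  have h2 : Tk k c k = (nsq (Zk k c) : ℂ) * conj (c k) := by simp [Tk]
  rw [e1, e2, Zk_Tk, Zk_HE h, h1, h2]
  unfold HE
  rw [Function.update_idem]
  congr 1
  rw [nsq_smul, norm_inv]
  have h3 : (((‖Zk k c l‖ ^ 2 : ℝ)) : ℂ) = Zk k c l * conj (Zk k c l) := by
    rw [Complex.mul_conj, Complex.normSq_eq_norm_sq]
  have h4 : conj (Zk k c l) ≠ 0 := by simpa using h
  push_cast at h3 ⊢
  rw [inv_pow, h3, map_mul]
  field_simp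

theorem Zkl_Tk (k l : Fin d) (c : V d) : Zk k (Tk k c) l = Zk k c l := by rw [Zk_Tk]

/-! ### Rotation invariant forms under the inversion -/

theorem fderiv_inversion {v : V d} (hv : v ≠ 0) (h : V d) :
    fderiv ℝ (inversion : V d → V d) v h =
      (nsq v)⁻¹ • h + (-(2 * (hm v h).re) * ((nsq v) ^ 2)⁻¹) • v := by
  have hp := nsq_pos hv
  have h1 : HasFDerivAt (nsq : V d → ℝ) (fderiv ℝ (nsq : V d → ℝ) v) v :=
    (contDiff_nsq.contDiffAt.differentiableAt (by simp)).hasFDerivAt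
  have h2 : HasFDerivAt (fun v : V d => (nsq v)⁻¹) (-(nsq v ^ 2)⁻¹ • fderiv ℝ (nsq : V d → ℝ) v) v :=
    (hasDerivAt_inv hp.ne').comp_hasFDerivAt v h1
  have h3 : HasFDerivAt (fun v : V d => (nsq v)⁻¹ • v) _ v := h2.smul (hasFDerivAt_id v)
  have h4 : (inversion : V d → V d) = fun v => (nsq v)⁻¹ • v := rfl
  rw [h4, h3.fderiv]
  simp only [_root_.add_apply, _root_.smul_apply, ContinuousLinearMap.smulRight_apply,
    fderiv_nsq, smul_eq_mul, id_eq]
  congr 1
  congr 1
  ring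

theorem hm_rsmul_right (c : ℝ) (v h : V d) : hm v (c • h) = (c : ℂ) * hm v h := by
  have : (c • h : V d) = (c : ℂ) • h := by funext i; simp
  rw [this, hm_smul_right]

theorem hm_rsmul_left (c : ℝ) (v h : V d) : hm (c • v) h = (c : ℂ) * hm v h := by
  have : (c • v : V d) = (c : ℂ) • v := by funext i; simp
  rw [this, hm_smul_left, Complex.conj_ofReal]

theorem pull_inversion_Lam {f g : ℝ → ℝ} {v : V d} (hv : v ≠ 0)
    (hf : ContDiffAt ℝ ∞ f (nsq v)⁻¹)
    (hg : g =ᶠ[𝓝 (nsq v)] fun r => f r⁻¹ * (r⁻¹) ^ 2) :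
    pull inversion (Lam f : V d → _) v = Lam g v := by
  have hp := nsq_pos hv
  have hn : nsq (inversion v) = (nsq v)⁻¹ := nsq_inversion v
  have hfd : HasDerivAt f (deriv f (nsq v)⁻¹) (nsq v)⁻¹ :=
    (hf.differentiableAt (by simp)).hasDerivAt
  have hinv : HasDerivAt (fun r : ℝ => r⁻¹) (-((nsq v) ^ 2)⁻¹) (nsq v) := hasDerivAt_inv hp.ne'
  have h1 : HasDerivAt (fun r => f r⁻¹ * (r⁻¹) ^ 2)
      (deriv f (nsq v)⁻¹ * -((nsq v) ^ 2)⁻¹ * ((nsq v)⁻¹) ^ 2 +
        f (nsq v)⁻¹ * (2 * (nsq v)⁻¹ * -((nsq v) ^ 2)⁻¹)) (nsq v) := by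
    have a1 : HasDerivAt (fun r => f r⁻¹) (deriv f (nsq v)⁻¹ * -((nsq v) ^ 2)⁻¹) (nsq v) :=
      hfd.comp (nsq v) hinv
    have a2 : HasDerivAt (fun r : ℝ => (r⁻¹) ^ 2) (2 * (nsq v)⁻¹ * -((nsq v) ^ 2)⁻¹) (nsq v) := by
      exact (hinv.pow 2).congr_deriv (by simp)
    exact a1.mul a2
  have hgs : ContDiffAt ℝ ∞ g (nsq v) := by
    have a1 : ContDiffAt ℝ ∞ (fun r : ℝ => r⁻¹) (nsq v) := contDiffAt_id.inv hp.ne'
    have a2 : ContDiffAt ℝ ∞ (fun r => f r⁻¹) (nsq v) := hf.comp (nsq v) a1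
    exact (a2.mul (a1.pow 2)).congr_of_eventuallyEq hg
  have hgd : deriv g (nsq v) = _ := (hg.deriv_eq).trans h1.deriv
  have hgv : g (nsq v) = f (nsq v)⁻¹ * ((nsq v)⁻¹) ^ 2 := hg.eq_of_nhds
  apply ext2
  intro h k
  rw [pull_apply, Lam_apply (by rw [hn]; exact hf), Lam_apply hgs, hgd, hgv, hn,
    fderiv_inversion hv, fderiv_inversion hv]
  have hiv : inversion v = (nsq v)⁻¹ • v := rfl
  rw [hiv]
  simp only [← hm_im, hm_add_left, hm_add_right, hm_rsmul_left, hm_rsmul_right, hm_self,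
    Complex.add_re, Complex.add_im, Complex.mul_re, Complex.mul_im, Complex.ofReal_re,
    Complex.ofReal_im, zero_mul, mul_zero, sub_zero, add_zero, zero_add]
  have hk : (hm h v).im = -(hm v h).im := by
    rw [← hm_conj v h]; simp
  rw [hk]
  field_simp
  ring

end Pool.Agent.X168.HA
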