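import Pool.Agent.X168.HA.Defs
import Pool.Agent.X168.HA.Chart

/-! Gluing of metrics given in coordinate systems. -/

set_option autoImplicit false

open Set Topology Filter
open scoped ContDiff Manifold

noncomputable section

namespace Pool.Agent.X168.HA

open Pool.Agent.X168.BU

variable {d : ℕ}

variable (d) in
/-- A field of bilinear forms on the tangent spaces; no regularity is required here. -/
abbrev Bil (X : Type) [TopologicalSpace X] [ChartedSpace (V d) X] : Type :=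
  (x : X) → (TangentSpace 𝓘(ℝ, V d) x) →L[ℝ] (TangentSpace 𝓘(ℝ, V d) x) →L[ℝ] ℝ

/-- The bilinear form `B(L u, L v)`. -/
def through (L : V d →L[ℝ] V d) (B : V d →L[ℝ] V d →L[ℝ] ℝ) : V d →L[ℝ] V d →L[ℝ] ℝ :=
  B.bilinearComp L L

/-- The pull-back of a field of bilinear forms by a map from the model space. -/
def pb2 {X : Type} [TopologicalSpace X] [ChartedSpace (V d) X] (φ : V d → X) (g : Bil d X)
    (p : V d) : V d →L[ℝ] V d →L[ℝ] ℝ :=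
  through (mfderiv 𝓘(ℝ, V d) 𝓘(ℝ, V d) φ p) (g (φ p))

/-- the bilinear map `t(h, i k)` -/
def toB (t : (V d) [⋀^Fin 2]→L[ℝ] ℝ) : V d →ₗ[ℝ] V d →ₗ[ℝ] ℝ :=
  LinearMap.mk₂ ℝ (fun h k => t ![h, Complex.I • k])
    (fun u u' v => alt_add t u u' _) (fun r u v => alt_smul t r u _)
    (fun u v w => by rw [smul_add, ← bil_apply, ← bil_apply, ← bil_apply, map_add])
    (fun r u v => by rw [smul_comm, ← bil_apply, ← bil_apply, map_smul])

theorem toB_bound (t : (V d) [⋀^Fin 2]→L[ℝ] ℝ) (h k : V d) :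
    ‖toB t h k‖ ≤ ‖t‖ * ‖h‖ * ‖k‖ := by
  have h1 := t.le_opNorm ![h, Complex.I • k]
  rw [Fin.prod_univ_two] at h1
  simp only [Matrix.cons_val_zero, Matrix.cons_val_one, norm_smul, Complex.norm_I, one_mul] at h1
  rw [mul_assoc]
  exact h1

/-- the bilinear form `t(h, i k)` -/
def toG (t : (V d) [⋀^Fin 2]→L[ℝ] ℝ) : V d →L[ℝ] V d →L[ℝ] ℝ :=
  LinearMap.mkContinuous₂ (toB t) ‖t‖ (toB_bound t)

theorem toG_apply (t : (V d) [⋀^Fin 2]→L[ℝ] ℝ) (h k : V d) :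
    toG t h k = t ![h, Complex.I • k] := rfl

theorem toG_bound (t : (V d) [⋀^Fin 2]→L[ℝ] ℝ) : ‖toG t‖ ≤ 1 * ‖t‖ := by
  rw [one_mul]
  exact LinearMap.mkContinuous₂_norm_le _ (norm_nonneg _) _

theorem isBounded_toG (d : ℕ) : IsBoundedLinearMap ℝ
    (toG : (V d) [⋀^Fin 2]→L[ℝ] ℝ → V d →L[ℝ] V d →L[ℝ] ℝ) where
  map_add := fun s t => by ext h k; rfl
  map_smul := fun r t => by ext h k; rfl
  bound := ⟨1, zero_lt_one, toG_bound⟩

theorem contDiff_toG (d : ℕ) : ContDiff ℝ ∞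
    (toG : (V d) [⋀^Fin 2]→L[ℝ] ℝ → V d →L[ℝ] V d →L[ℝ] ℝ) := (isBounded_toG d).contDiff

theorem through_eq (L : V d →L[ℝ] V d) (B : V d →L[ℝ] V d →L[ℝ] ℝ) :
    through L B = ((ContinuousLinearMap.compL ℝ (V d) (V d) ℝ).flip L).comp (B.comp L) := by
  ext h k
  rfl

theorem contDiffAt_through {E : Type} [NormedAddCommGroup E] [NormedSpace ℝ E]
    {L : E → V d →L[ℝ] V d} {B : E → V d →L[ℝ] V d →L[ℝ] ℝ} {p : E}
    (hL : ContDiffAt ℝ ∞ L p) (hB : ContDiffAt ℝ ∞ B p) :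
    ContDiffAt ℝ ∞ (fun t => through (L t) (B t)) p := by
  simp only [through_eq]
  exact (((ContinuousLinearMap.contDiff _).contDiffAt.comp p hL)).clm_comp (hB.clm_comp hL)

variable {X : Type} [TopologicalSpace X] [ChartedSpace (V d) X]

theorem pb2_apply {φ : V d → X} {g : Bil d X} {z : V d} (h k : V d) :
    pb2 φ g z h k = g (φ z) (mfderiv 𝓘(ℝ, V d) 𝓘(ℝ, V d) φ z h)
      (mfderiv 𝓘(ℝ, V d) 𝓘(ℝ, V d) φ z k) := rfl

theorem pb2_comp (g : Bil d X) {φ : V d → X} {κ : V d → X} {h : V d → V d} {p : V d}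
    (hκ : MDifferentiableAt 𝓘(ℝ, V d) 𝓘(ℝ, V d) κ (h p)) (hh : DifferentiableAt ℝ h p)
    (he : φ =ᶠ[𝓝 p] fun t => κ (h t)) :
    pb2 φ g p = through (fderiv ℝ h p) (pb2 κ g (h p)) := by
  have hp : φ p = κ (h p) := he.eq_of_nhds
  have h1 : mfderiv 𝓘(ℝ, V d) 𝓘(ℝ, V d) φ p =
      (mfderiv 𝓘(ℝ, V d) 𝓘(ℝ, V d) κ (h p)).comp (fderiv ℝ h p) := by
    rw [he.mfderiv_eq]
    have h2 := mfderiv_comp p hκ hh.mdifferentiableAt
    rw [mfderiv_eq_fderiv] at h2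
    exact h2
  unfold pb2
  rw [h1]
  have key : ∀ q : X, q = κ (h p) → ∀ (L : V d →L[ℝ] V d),
      through L (g q) = through L (g (κ (h p))) := by
    rintro q rfl L
    rfl
  exact key _ hp _

theorem exists_bil {ι : Type} {U : ι → Set (V d)} {κ : ι → V d → X} (hF : Fam U κ)
    (s : ι → V d → (V d →L[ℝ] V d →L[ℝ] ℝ)) (hs : ∀ i, ContDiffOn ℝ ∞ (s i) (U i))
    (hc : ∀ i j, ∀ z ∈ U i, ∀ z' ∈ U j, κ i z = κ j z' → ∃ h : V d → V d,
      ContDiffAt ℝ ∞ h z ∧ h z = z' ∧ (∀ᶠ t in 𝓝 z, κ i t = κ j (h t)) ∧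
      s i z = through (fderiv ℝ h z) (s j z')) :
    ∃ g : Bil d X, (∀ (W : Set (V d)) (φ : V d → X), IsOpen W →
      ContMDiffOn 𝓘(ℝ, V d) 𝓘(ℝ, V d) ∞ φ W → ContDiffOn ℝ ∞ (pb2 φ g) W) ∧
      ∀ i, ∀ z ∈ U i, pb2 (κ i) g z = s i z := by
  classical
  choose I Z hZ hZp using hF.cov
  have hinv : ∀ p : X, ∃ g : X → V d, ContMDiffAt 𝓘(ℝ, V d) 𝓘(ℝ, V d) ∞ g p ∧
      g p = Z p ∧ (∀ᶠ q in 𝓝 p, κ (I p) (g q) = q) ∧ ∀ᶠ t in 𝓝 (Z p), g (κ (I p) t) = t := by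
    intro p
    obtain ⟨g, h1, h2, h3, h4⟩ := hF.inv (I p) (Z p) (hZ p)
    rw [hZp] at h1 h2 h3
    exact ⟨g, h1, h2, h3, h4⟩
  choose G hG1 hG2 hG3 hG4 using hinv
  set Ω : Bil d X := fun p =>
    through (mfderiv 𝓘(ℝ, V d) 𝓘(ℝ, V d) (G p) p) (s (I p) (Z p)) with hΩ
  have key : ∀ i, ∀ z ∈ U i, pb2 (κ i) Ω z = s i z := by
    intro i z hz
    obtain ⟨p, hp⟩ : ∃ p, p = κ i z := ⟨_, rfl⟩
    obtain ⟨h, h1, h2, h3, h4⟩ := hc i (I p) z hz (Z p) (hZ p) (by rw [hZp, hp])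
    have e1 : (fun t => G p (κ i t)) =ᶠ[𝓝 z] h := by
      have e2 : Tendsto h (𝓝 z) (𝓝 (Z p)) := by
        rw [← h2]; exact h1.continuousAt
      filter_upwards [h3, e2 (hG4 p)] with t a b
      rw [a]
      exact b
    have e3 : fderiv ℝ h z = (mfderiv 𝓘(ℝ, V d) 𝓘(ℝ, V d) (G p) (κ i z)).comp
        (mfderiv 𝓘(ℝ, V d) 𝓘(ℝ, V d) (κ i) z) := by
      have h5 : MDifferentiableAt 𝓘(ℝ, V d) 𝓘(ℝ, V d) (G p) (κ i z) := by
        rw [← hp]; exact (hG1 p).mdifferentiableAt (by simp)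
      have h6 : MDifferentiableAt 𝓘(ℝ, V d) 𝓘(ℝ, V d) (κ i) z :=
        (hF.sm i z hz).mdifferentiableAt (by simp)
      rw [← mfderiv_comp z h5 h6, ← mfderiv_eq_fderiv]
      exact e1.symm.mfderiv_eq
    rw [h4, e3]
    unfold pb2
    rw [hΩ, ← hp]
    ext u v
    rfl
  refine ⟨Ω, ?_, key⟩
  intro W φ hW hφ p hp
  set q : X := φ p with hq
  have hφp : ContMDiffAt 𝓘(ℝ, V d) 𝓘(ℝ, V d) ∞ φ p := hφ.contMDiffAt (hW.mem_nhds hp)
  have h1 : ContMDiffAt 𝓘(ℝ, V d) 𝓘(ℝ, V d) ∞ (fun t => G q (φ t)) p :=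
    ContMDiffAt.comp p (hG1 q) hφp
  have h2 : ContDiffAt ℝ ∞ (fun t => G q (φ t)) p := h1.contDiffAt
  have hq2 : G q (φ p) = Z q := hG2 q
  have h3 : ∀ᶠ t in 𝓝 p, κ (I q) (G q (φ t)) = φ t := hφp.continuousAt.eventually (hG3 q)
  have h4 : ∀ᶠ t in 𝓝 p, G q (φ t) ∈ U (I q) := by
    apply h2.continuousAt
    change U (I q) ∈ 𝓝 (G q (φ p))
    rw [hq2]
    exact (hF.op _).mem_nhds (hZ q)
  have h5 : ∀ᶠ t in 𝓝 p, DifferentiableAt ℝ (fun t => G q (φ t)) t := by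
    have h6 : ContDiffAt ℝ 1 (fun t => G q (φ t)) p := h2.of_le (by simp)
    filter_upwards [h6.eventually (by simp)] with t ht
    exact ht.differentiableAt (by simp)
  have h7 : pb2 φ Ω =ᶠ[𝓝 p] fun t => through (fderiv ℝ (fun t => G q (φ t)) t)
      (s (I q) (G q (φ t))) := by
    filter_upwards [h3.eventually_nhds, h4, h5] with t a b c
    rw [pb2_comp Ω (κ := κ (I q)) (h := fun t => G q (φ t))
      ((hF.sm _ _ b).mdifferentiableAt (by simp)) c (a.mono fun _ h => h.symm)]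
    rw [key _ _ b]
  have h8 : ContDiffAt ℝ ∞ (s (I q)) (G q (φ p)) := by
    rw [hq2]
    exact (hs _).contDiffAt ((hF.op _).mem_nhds (hZ q))
  have h9 : ContDiffAt ℝ ∞ (fun t => through (fderiv ℝ (fun t => G q (φ t)) t)
      (s (I q) (G q (φ t)))) p :=
    contDiffAt_through (h2.fderiv_right (by simp)) (h8.comp p h2)
  exact (h9.congr_of_eventuallyEq h7).contDiffWithinAt

end Pool.Agent.X168.HA
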