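import Pool.Agent.X168.BU.Sum

/-! Riemannian metrics, Hodge duality in dimension four, intrinsically harmonic two-forms. -/

set_option autoImplicit false

open Set Filter Topology
open scoped Manifold ContDiff

noncomputable section

namespace Pool.Agent.X168.HA

open Pool.Agent.X168.BU

variable {d : ℕ} {X : Type} [TopologicalSpace X] [ChartedSpace (V d) X]

/-- The alternating form `w x` on the tangent space at `x`. (The tangent space
`TangentSpace 𝓘(ℝ, V d) x` of Mathlib is the model space `V d`.) -/
def altAt (w : Form d X 2) (x : X) : (V d) [⋀^Fin 2]→L[ℝ] ℝ := w x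

/-- The value of a two-form on two tangent vectors at `x`. -/
def ev (w : Form d X 2) (x : X) (u v : V d) : ℝ := altAt w x ![u, v]

/-- The differential at `p` of a map from the model space to `X`. -/
def dmap (φ : V d → X) (p : V d) : V d →L[ℝ] V d := mfderiv 𝓘(ℝ, V d) 𝓘(ℝ, V d) φ p

/-- Riemannian metrics on `X`: `g x u v` is the inner product of the tangent vectors `u` and `v`
at `x`; it is bilinear, symmetric, positive definite, and smooth: for every smooth map `φ` from an
open subset of the model space (such as an inverse chart) the coefficients of the pull-back of `g`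
by `φ` are smooth functions. -/
structure IsRiemannian (g : X → V d → V d → ℝ) : Prop where
  add : ∀ x u u' v, g x (u + u') v = g x u v + g x u' v
  smul : ∀ x (c : ℝ) u v, g x (c • u) v = c * g x u v
  symm : ∀ x u v, g x u v = g x v u
  pos : ∀ x u, u ≠ 0 → 0 < g x u u
  smooth : ∀ (U : Set (V d)) (φ : V d → X) (u v : V d), IsOpen U →
    ContMDiffOn 𝓘(ℝ, V d) 𝓘(ℝ, V d) ∞ φ U →
    ContDiffOn ℝ ∞ (fun p => g (φ p) (dmap φ p u) (dmap φ p v)) U

/-- The value of the four-form `½ τ ∧ τ` on a frame at `x`: the Pfaffian of the matrix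
`(τ (e i, e j))`. -/
def pfaff (τ : Form d X 2) (x : X) (e : Fin 4 → V d) : ℝ :=
  ev τ x (e 0) (e 1) * ev τ x (e 2) (e 3) - ev τ x (e 0) (e 2) * ev τ x (e 1) (e 3) +
    ev τ x (e 0) (e 3) * ev τ x (e 1) (e 2)

/-- `η` is the Hodge dual `⋆w` of the two-form `w` on the four-manifold `X`, with respect to the
metric `g` and the orientation in which `τ ∧ τ` is positive (`τ` is a nondegenerate two-form):
`η(e₂, e₃) = w(e₀, e₁)` for every positively oriented orthonormal frame `e₀, e₁, e₂, e₃`. -/
def IsHodgeDual (g : X → V d → V d → ℝ) (τ w η : Form d X 2) : Prop :=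
  ∀ (x : X) (e : Fin 4 → V d), (∀ i j, g x (e i) (e j) = if i = j then 1 else 0) →
    0 < pfaff τ x e → ev η x (e 2) (e 3) = ev w x (e 0) (e 1)

/-- The two-form `w` is nondegenerate (of maximal rank) at `x`. -/
def NondegAt (w : Form d X 2) (x : X) : Prop := ∀ u, (∀ v, ev w x u v = 0) → u = 0

/-- The two-form `w` on the four-manifold `X` is harmonic for some Riemannian metric `g`: for an
orientation of `X`, given by a smooth nondegenerate two-form `τ`, both `w` and its Hodge dual `η`
are smooth and closed. -/
def IntrinsicallyHarmonic (w : Form d X 2) : Prop :=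
  ∃ (g : X → V d → V d → ℝ) (τ η : Form d X 2), IsRiemannian g ∧
    IsSmooth τ ∧ (∀ x, NondegAt τ x) ∧ IsSmooth w ∧ IsClosedForm w ∧ IsSmooth η ∧
    IsClosedForm η ∧ IsHodgeDual g τ w η

end Pool.Agent.X168.HA
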