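import Pool.Agent.X168.HA.Point

/-! The intrinsically harmonic form. -/

set_option autoImplicit false

open Set Filter Topology
open scoped Manifold ContDiff ComplexConjugate

noncomputable section

namespace Pool.Agent.X168.HA

open Pool.Agent.X168.BU

theorem smooth_frac (a b q : ℝ) (ha : 0 < a) (hb : 0 ≤ b) (r : ℝ) (hr : 0 ≤ r) :
    ContDiffAt ℝ ∞ (fun r : ℝ => q * (a + b * r)⁻¹) r := by
  have h1 : a + b * r ≠ 0 := by positivity
  exact contDiffAt_const.mul ((contDiffAt_const.add (contDiffAt_const.mul contDiffAt_id)).inv h1)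

theorem deriv_frac (a b q : ℝ) (ha : 0 < a) (hb : 0 ≤ b) (r : ℝ) (hr : 0 ≤ r) :
    HasDerivAt (fun r : ℝ => q * (a + b * r)⁻¹) (-(q * b) / (a + b * r) ^ 2) r := by
  have h1 : a + b * r ≠ 0 := by positivity
  have h2 : HasDerivAt (fun r : ℝ => a + b * r) b r := by
    simpa using ((hasDerivAt_id r).const_mul b).const_add a
  exact ((h2.inv h1).const_mul q).congr_deriv (by ring)

/-- the Kähler form -/
def PA : Prof where
  p := fun r => 2 * (1 + 1 * r)⁻¹
  e := 1
  m := fun r => -2 * (1 + 1 * r)⁻¹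
  e' := 3
  smp := smooth_frac 1 1 2 (by norm_num) (by norm_num)
  smm := smooth_frac 1 1 (-2) (by norm_num) (by norm_num)
  eq := fun r hr => by
    have h1 : 1 + 1 * r ≠ 0 := by positivity
    have h2 : 1 + 1 * r⁻¹ ≠ 0 := by positivity
    have h3 : r + 1 ≠ 0 := by positivity
    field_simp
    ring

/-- the anti-self-dual form -/
def PB : Prof where
  p := fun r => -2 * (1 + 3 * r)⁻¹
  e := 1
  m := fun r => (2 / 3) * (3 + 1 * r)⁻¹
  e' := 1 / 3
  smp := smooth_frac 1 3 (-2) (by norm_num) (by norm_num)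
  smm := smooth_frac 3 1 (2 / 3) (by norm_num) (by norm_num)
  eq := fun r hr => by
    have h1 : 3 + 1 * r ≠ 0 := by positivity
    have h2 : 1 + 3 * r⁻¹ ≠ 0 := by positivity
    have h3 : r + 3 ≠ 0 := by positivity
    field_simp
    ring

theorem PA_f {r : ℝ} : PA.f r = 2 * (1 + 1 * r)⁻¹ + 1 * r⁻¹ := rfl

theorem PB_f {r : ℝ} : PB.f r = -2 * (1 + 3 * r)⁻¹ + 1 * r⁻¹ := rfl

theorem PA_f' {r : ℝ} (hr : 0 < r) :
    deriv PA.f r = -(2 * 1) / (1 + 1 * r) ^ 2 + 1 * -(r ^ 2)⁻¹ :=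
  ((deriv_frac 1 1 2 (by norm_num) (by norm_num) r hr.le).add
    ((hasDerivAt_inv hr.ne').const_mul 1)).deriv

theorem PB_f' {r : ℝ} (hr : 0 < r) :
    deriv PB.f r = -(-2 * 3) / (1 + 3 * r) ^ 2 + 1 * -(r ^ 2)⁻¹ :=
  ((deriv_frac 1 3 (-2) (by norm_num) (by norm_num) r hr.le).add
    ((hasDerivAt_inv hr.ne').const_mul 1)).deriv

/-- the pointwise properties of the two forms -/
structure Good (α β : (V 2) [⋀^Fin 2]→L[ℝ] ℝ) : Prop where
  Ia : ∀ h k, α ![Complex.I • h, Complex.I • k] = α ![h, k]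
  Ib : ∀ h k, β ![Complex.I • h, Complex.I • k] = β ![h, k]
  pol : ∀ e, polar α β e = 0
  pos : ∀ h, h ≠ 0 → 0 < α ![h, Complex.I • h]
  nz : ∃ h, α ![h, Complex.I • h] + 4 * β ![h, Complex.I • h] ≠ 0

theorem good_A {v : V 2} (hv : v ≠ 0) : Good (hS PA none v) (hS PB none v) := by
  have hr := nsq_pos hv
  have hA := PA.smf hr
  have hB := PB.smf hr
  have h1 : 1 + 1 * nsq v ≠ 0 := by positivity
  have h3 : 1 + 3 * nsq v ≠ 0 := by positivity
  have h1' : 1 + nsq v ≠ 0 := by positivity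
  refine ⟨Lam_I hA, Lam_I hB, polar_Lam hA hB ?_, fun h hh => pos_Lam hA ?_ ?_ hh, ?_⟩
  · rw [PA_f, PB_f, PA_f' hr, PB_f' hr]
    field_simp
    ring
  · rw [PA_f]
    positivity
  · rw [PA_f, PA_f' hr]
    have : 2 * (1 + 1 * nsq v)⁻¹ + 1 * (nsq v)⁻¹ + nsq v * (-(2 * 1) / (1 + 1 * nsq v) ^ 2 +
        1 * -(nsq v ^ 2)⁻¹) = 2 / (1 + nsq v) ^ 2 := by
      field_simp
      ring
    rw [this]
    positivity
  · refine ⟨![-conj (v 1), conj (v 0)], ?_⟩
    change Lam PA.f v _ + 4 * Lam PB.f v _ ≠ 0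
    have e1 : hm v ![-conj (v 1), conj (v 0)] = 0 := by
      simp [hm, Fin.sum_univ_two]
      ring
    have e2 : nsq (![-conj (v 1), conj (v 0)] : V 2) = nsq v := by
      simp [nsq, Fin.sum_univ_two]
      ring
    rw [Lam_tame hA, Lam_tame hB, e1, e2, PA_f, PB_f]
    have e3 : -2 * (1 + 3 * nsq v)⁻¹ + 1 * (nsq v)⁻¹ =
        (1 + nsq v) / ((1 + 3 * nsq v) * nsq v) := by
      field_simp
      ring
    rw [e3]
    simp only [norm_zero, ne_eq, OfNat.ofNat_ne_zero, not_false_eq_true, zero_pow, mul_zero,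
      add_zero]
    positivity

theorem good_E {k : Fin 2} {c : V 2} (hc : c k = 0) :
    Good (hS PA (some (Sum.inl k)) c) (hS PB (some (Sum.inl k)) c) := by
  have hN := nsq_pos (Zk_ne k c)
  have hA := S_line (P := PA) hc
  have hB := S_line (P := PB) hc
  refine ⟨I_xi hA, I_xi hB, polar_xi hA hB ?_, fun h hh => pos_xi hA ?_ ?_ hh, ?_⟩
  · simp only [PA, PB]
    ring
  · simp only [PA]
    norm_num
    positivity
  · simp only [PA]
    positivity
  · refine ⟨Function.update (0 : V 2) (1 - k) 1, ?_⟩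
    rw [hA, hB, xi_tame, xi_tame]
    simp only [PA, PB, Function.update_self]
    have e1 : (Function.update (0 : V 2) (1 - k) 1) k = 0 := by
      rw [Function.update_of_ne]
      · rfl
      · fin_cases k <;> decide
    rw [e1]
    norm_num
    positivity

theorem good_L {k : Fin 2} {c : V 2} (hc : c k = 0) :
    Good (hS PA (some (Sum.inr k)) c) (hS PB (some (Sum.inr k)) c) := by
  have hN := nsq_pos (Zk_ne k c)
  have hA := S_line' (P := PA) hc
  have hB := S_line' (P := PB) hc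
  refine ⟨I_xi hA, I_xi hB, polar_xi hA hB ?_, fun h hh => pos_xi hA ?_ ?_ hh, ?_⟩
  · simp only [PA, PB]
    field_simp
    ring
  · simp only [PA]
    norm_num
    positivity
  · simp only [PA]
    positivity
  · refine ⟨Function.update (0 : V 2) (1 - k) 1, ?_⟩
    rw [hA, hB, xi_tame, xi_tame]
    simp only [PA, PB, Function.update_self]
    have e1 : (Function.update (0 : V 2) (1 - k) 1) k = 0 := by
      rw [Function.update_of_ne]
      · rfl
      · fin_cases k <;> decide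
    rw [e1]
    norm_num
    have e2 : 3 / nsq (Zk k c) ^ 2 + 4 * (1 / 3 / nsq (Zk k c) ^ 2) ≠ 0 := by positivity
    exact e2

theorem hII {d : ℕ} (x : V d) : Complex.I • Complex.I • x = -x := by
  rw [smul_smul, Complex.I_mul_I, neg_one_smul]

theorem alt_neg {d : ℕ} (t : (V d) [⋀^Fin 2]→L[ℝ] ℝ) (u v : V d) : t ![-u, v] = - t ![u, v] := by
  have := alt_smul t (-1) u v
  rw [neg_one_smul] at this
  rw [this]
  ring

section main

variable {W : Type} [TopologicalSpace W] [ChartedSpace (V 2) W] {i j : CP 2 → W}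

theorem pb_add_smul {d k : ℕ} {X : Type} [TopologicalSpace X] [ChartedSpace (V d) X]
    (s t : Form d X k) (r : ℝ) (φ : V d → X) :
    pb φ (fun x => s x + r • t x) = fun p => pb φ s p + r • pb φ t p := by
  funext p
  unfold pb
  ext v
  rfl

theorem smooth_add_smul {d k : ℕ} {X : Type} [TopologicalSpace X] [ChartedSpace (V d) X]
    {s t : Form d X k} (r : ℝ) (hs : IsSmooth s) (ht : IsSmooth t) :
    IsSmooth (fun x => s x + r • t x) := by
  intro U φ hU hφ
  rw [pb_add_smul]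
  exact (hs U φ hU hφ).add ((ht U φ hU hφ).const_smul r)

theorem closed_add_smul {d : ℕ} {X : Type} [TopologicalSpace X] [ChartedSpace (V d) X]
    {s t : Form d X 2} (r : ℝ) (hs : IsSmooth s) (ht : IsSmooth t) (hs' : IsClosedForm s)
    (ht' : IsClosedForm t) : IsClosedForm (fun x => s x + r • t x) := by
  intro U φ hU hφ p hp
  rw [pb_add_smul]
  exact extDeriv_add' ((hs U φ hU hφ).contDiffAt (hU.mem_nhds hp))
    ((ht U φ hU hφ).contDiffAt (hU.mem_nhds hp)) (hs' U φ hU hφ p hp) (ht' U φ hU hφ p hp)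

theorem exists_harmonic (h : IsConnectedSum (aff none) (aff none) i j) :
    ∃ w : Form 2 W 2, IntrinsicallyHarmonic w ∧ (∀ x, ∃ u v, ev w x u v ≠ 0) ∧
      (∃ x, NondegAt w x) ∧
      ∃ x, ¬ NondegAt w x := by
  obtain ⟨α, a1, a2, a3⟩ := exists_prof h PA
  obtain ⟨β, b1, b2, b3⟩ := exists_prof h PB
  obtain ⟨g, g1, g2⟩ := exists_metric h PA
  -- every point has a good coordinate system
  have good : ∀ w : W, ∃ l, ∃ z ∈ hU l, hK i j l z = w ∧ LD 2 (hK i j l) z ∧
      Good (hS PA l z) (hS PB l z) := by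
    intro w
    rcases hcov' h w with ⟨v, hv, e⟩ | ⟨k, c, hc, e⟩ | ⟨k, c, hc, e⟩
    · exact ⟨none, v, hv, e, hld h none v hv, good_A hv⟩
    · exact ⟨some (Sum.inl k), c, mem_univ c, e, hld h (some (Sum.inl k)) c (mem_univ c),
        good_E hc⟩
    · exact ⟨some (Sum.inr k), c, mem_univ c, e, hld h (some (Sum.inr k)) c (mem_univ c),
        good_L hc⟩
  have ga : ∀ l, ∀ z ∈ hU l, ∀ u v : V 2,
      α (hK i j l z) ![mfderiv 𝓘(ℝ, V 2) 𝓘(ℝ, V 2) (hK i j l) z u,
        mfderiv 𝓘(ℝ, V 2) 𝓘(ℝ, V 2) (hK i j l) z v] = hS PA l z ![u, v] := by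
    intro l z hz u v
    rw [← pb_apply, a3 l z hz]
  have gb : ∀ l, ∀ z ∈ hU l, ∀ u v : V 2,
      β (hK i j l z) ![mfderiv 𝓘(ℝ, V 2) 𝓘(ℝ, V 2) (hK i j l) z u,
        mfderiv 𝓘(ℝ, V 2) 𝓘(ℝ, V 2) (hK i j l) z v] = hS PB l z ![u, v] := by
    intro l z hz u v
    rw [← pb_apply, b3 l z hz]
  have gg : ∀ l, ∀ z ∈ hU l, ∀ u v : V 2,
      g (hK i j l z) (mfderiv 𝓘(ℝ, V 2) 𝓘(ℝ, V 2) (hK i j l) z u)
        (mfderiv 𝓘(ℝ, V 2) 𝓘(ℝ, V 2) (hK i j l) z v) = hS PA l z ![u, Complex.I • v] := by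
    intro l z hz u v
    rw [← pb2_apply, g2 l z hz]
    rfl
  have zero : ∀ l, ∀ z : V 2, mfderiv 𝓘(ℝ, V 2) 𝓘(ℝ, V 2) (hK i j l) z (0 : V 2) = 0 :=
    fun l z => ContinuousLinearMap.map_zero (mfderiv 𝓘(ℝ, V 2) 𝓘(ℝ, V 2) (hK i j l) z)
  have sj : ∀ (l : Option (Fin 2 ⊕ Fin 2)) (z : V 2), LD 2 (hK i j l) z →
      ∀ t : TangentSpace 𝓘(ℝ, V 2) (hK i j l z),
      ∃ u : V 2, mfderiv 𝓘(ℝ, V 2) 𝓘(ℝ, V 2) (hK i j l) z u = t := fun l z hL t => hL.surj t
  refine ⟨fun x => α x + (4 : ℝ) • β x, ⟨fun x u v => g x u v, α, fun x => α x + (-4 : ℝ) • β x,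
    ⟨?_, ?_, ?_, ?_, ?_⟩, a1, ?_, smooth_add_smul 4 a1 b1, closed_add_smul 4 a1 b1 a2 b2,
    smooth_add_smul (-4) a1 b1, closed_add_smul (-4) a1 b1 a2 b2, ?_⟩, ?_, ?_, ?_⟩
  · intro x u u' v
    obtain ⟨l, z, hz, rfl, hL, G⟩ := good x
    obtain ⟨u, rfl⟩ := sj l z hL u
    obtain ⟨u', rfl⟩ := sj l z hL u'
    obtain ⟨v, rfl⟩ := sj l z hL v
    have e1 : (mfderiv 𝓘(ℝ, V 2) 𝓘(ℝ, V 2) (hK i j l) z (u + u') : V 2) =
      (mfderiv 𝓘(ℝ, V 2) 𝓘(ℝ, V 2) (hK i j l) z u : V 2) +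
      (mfderiv 𝓘(ℝ, V 2) 𝓘(ℝ, V 2) (hK i j l) z u' : V 2) :=
      ContinuousLinearMap.map_add (mfderiv 𝓘(ℝ, V 2) 𝓘(ℝ, V 2) (hK i j l) z) u u'
    have e2 := gg l z hz (u + u') v
    rw [e1] at e2
    refine e2.trans ?_
    rw [gg l z hz, gg l z hz, alt_add]
  · intro x c u v
    obtain ⟨l, z, hz, rfl, hL, G⟩ := good x
    obtain ⟨u, rfl⟩ := sj l z hL u
    obtain ⟨v, rfl⟩ := sj l z hL v
    have e1 : (mfderiv 𝓘(ℝ, V 2) 𝓘(ℝ, V 2) (hK i j l) z (c • u) : V 2) =
      c • (mfderiv 𝓘(ℝ, V 2) 𝓘(ℝ, V 2) (hK i j l) z u : V 2) :=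
      ContinuousLinearMap.map_smul (mfderiv 𝓘(ℝ, V 2) 𝓘(ℝ, V 2) (hK i j l) z) c u
    have e2 := gg l z hz (c • u) v
    rw [e1] at e2
    refine e2.trans ?_
    rw [gg l z hz, alt_smul]
  · intro x u v
    obtain ⟨l, z, hz, rfl, hL, G⟩ := good x
    obtain ⟨u, rfl⟩ := sj l z hL u
    obtain ⟨v, rfl⟩ := sj l z hL v
    rw [gg l z hz, gg l z hz, ← G.Ia v, hII]
    have e1 := alt_swap (hS PA l z) (Complex.I • v) (-u)
    rw [e1, alt_neg, neg_neg]
  · intro x u hu
    obtain ⟨l, z, hz, rfl, hL, G⟩ := good x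
    obtain ⟨u, rfl⟩ := sj l z hL u
    rw [gg l z hz]
    refine G.pos u fun e => hu ?_
    rw [e]
    exact zero l z
  · intro U φ u v hU hφ
    have k1 : ContDiffOn ℝ ∞ (fun p => pb2 φ g p u v) U :=
      ((g1 U φ hU hφ).clm_apply contDiffOn_const).clm_apply contDiffOn_const
    exact k1
  · intro x v hv
    obtain ⟨l, z, hz, rfl, hL, G⟩ := good x
    obtain ⟨v, rfl⟩ := sj l z hL v
    by_contra hc
    have hv0 : v ≠ 0 := fun e => hc (by rw [e]; exact zero l z)
    have e1 := hv (mfderiv 𝓘(ℝ, V 2) 𝓘(ℝ, V 2) (hK i j l) z (Complex.I • v : V 2))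
    have e2 := (ga l z hz v (Complex.I • v)).symm.trans e1
    exact (G.pos v hv0).ne' e2
  · intro x e he hpf
    obtain ⟨l, z, hz, rfl, hL, G⟩ := good x
    choose e' he' using fun a => sj l z hL (e a)
    have key : ∀ a b, ev α (hK i j l z) (e a) (e b) = hS PA l z ![e' a, e' b] := by
      intro a b
      rw [← ga l z hz, he', he']
      rfl
    have key' : ∀ a b, ev β (hK i j l z) (e a) (e b) = hS PB l z ![e' a, e' b] := by
      intro a b
      rw [← gb l z hz, he', he']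
      rfl
    have hstar := star_lemma G.Ia G.Ib G.pol (e := e') (by
      intro a b
      rw [← gg l z hz, he', he']
      exact he a b) (by
      unfold pfaff at hpf
      unfold pf
      rwa [key, key, key, key, key, key] at hpf)
    change ev α (hK i j l z) (e 2) (e 3) + (-4 : ℝ) * ev β (hK i j l z) (e 2) (e 3) =
      ev α (hK i j l z) (e 0) (e 1) + (4 : ℝ) * ev β (hK i j l z) (e 0) (e 1)
    rw [key, key, key', key', hstar.1, hstar.2]
    ring
  · intro x
    by_contra hx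
    push Not at hx
    obtain ⟨l, z, hz, rfl, hL, G⟩ := good x
    obtain ⟨u, hu⟩ := G.nz
    apply hu
    rw [← ga l z hz, ← gb l z hz]
    exact hx _ _
  · -- nondegenerate at a point with `nsq v = 9`
    set v : V 2 := ![3, 0] with hv
    have hn : nsq v = 9 := by
      simp [nsq, Fin.sum_univ_two, hv]
      norm_num
    have hv0 : v ≠ 0 := by
      intro e
      rw [e, nsq_eq_zero.2 rfl] at hn
      norm_num at hn
    have hr : (0 : ℝ) < nsq v := by rw [hn]; norm_num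
    have hL := hld h none v hv0
    refine ⟨hK i j none v, ?_⟩
    intro t ht
    obtain ⟨u, rfl⟩ := sj none v hL t
    by_contra hc
    have hu0 : u ≠ 0 := fun e => hc (by rw [e]; exact zero none v)
    have e1 := ht (mfderiv 𝓘(ℝ, V 2) 𝓘(ℝ, V 2) (hK i j none) v (Complex.I • u : V 2))
    have e2 : Lam PA.f v ![u, Complex.I • u] + 4 * Lam PB.f v ![u, Complex.I • u] = 0 := by
      have k1 := ga none v hv0 u (Complex.I • u)
      have k2 := gb none v hv0 u (Complex.I • u)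
      change _ = Lam PA.f v ![u, Complex.I • u] at k1
      change _ = Lam PB.f v ![u, Complex.I • u] at k2
      rw [← k1, ← k2]
      exact e1
    have e3 : 0 < Lam (fun x => PA.f x + 4 * PB.f x) v ![u, Complex.I • u] := by
      have hA := PA.smf hr
      have hB := PB.smf hr
      have k3 : ContDiffAt ℝ ∞ (fun x => PA.f x + 4 * PB.f x) (nsq v) :=
        hA.add (contDiffAt_const.mul hB)
      have k4 : deriv (fun x => PA.f x + 4 * PB.f x) (nsq v) =
          deriv PA.f (nsq v) + 4 * deriv PB.f (nsq v) := by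
        rw [deriv_fun_add (hA.differentiableAt (by simp))
          ((hB.differentiableAt (by simp)).const_mul 4), deriv_const_mul_field]
      refine pos_Lam k3 ?_ ?_ hu0
      · rw [PA_f, PB_f, hn]
        norm_num
      · rw [k4, PA_f, PB_f, PA_f' hr, PB_f' hr, hn]
        norm_num
    rw [Lam_add (PA.smf hr) (PB.smf hr)] at e3
    exact e3.ne' e2
  · -- degenerate at a point with `nsq v = 1`
    set v : V 2 := ![1, 0] with hv
    have hn : nsq v = 1 := by
      simp [nsq, Fin.sum_univ_two, hv]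
    have hv0 : v ≠ 0 := by
      intro e
      rw [e, nsq_eq_zero.2 rfl] at hn
      norm_num at hn
    have hr : (0 : ℝ) < nsq v := by rw [hn]; norm_num
    have hL := hld h none v hv0
    refine ⟨hK i j none v, fun hnd => ?_⟩
    have e0 : mfderiv 𝓘(ℝ, V 2) 𝓘(ℝ, V 2) (hK i j none) v v = 0 := by
      apply hnd
      intro t
      obtain ⟨u, rfl⟩ := sj none v hL t
      have k1 := ga none v hv0 v u
      have k2 := gb none v hv0 v u
      change _ = Lam PA.f v ![v, u] at k1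
      change _ = Lam PB.f v ![v, u] at k2
      have k3 : Lam PA.f v ![v, u] + 4 * Lam PB.f v ![v, u] = 0 := by
        rw [Lam_apply (PA.smf hr), Lam_apply (PB.smf hr), hm_self, om_self, PA_f, PB_f,
          PA_f' hr, PB_f' hr, Complex.ofReal_re, hn]
        ring
      rw [← k1, ← k2] at k3
      exact k3
    exact hv0 (hL.inj (e0.trans (zero none v).symm))

end main

end Pool.Agent.X168.HA
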