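import Pool.Agent.X168.BU.Disc

/-! Linear algebra of the Hodge star operator on a four-dimensional hermitian space. -/

set_option autoImplicit false

open Set Filter Topology
open scoped Manifold ContDiff

noncomputable section

namespace Pool.Agent.X168.HA

open Pool.Agent.X168.BU

/-- polynomial identities for the self-dual forms -/
theorem poly_a {a b c d e f : ℝ} (h00 : a ^ 2 + b ^ 2 + c ^ 2 = 1) (h11 : a ^ 2 + d ^ 2 + e ^ 2 = 1)
    (h22 : b ^ 2 + d ^ 2 + f ^ 2 = 1) (h33 : c ^ 2 + e ^ 2 + f ^ 2 = 1)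
    (h01 : b * d + c * e = 0) (h02 : -(a * d) + c * f = 0) (h03 : a * e + b * f = 0)
    (h12 : a * b + e * f = 0) (h13 : a * c - d * f = 0) (h23 : b * c + d * e = 0)
    (hp : 0 < a * f - b * e + c * d) : f = a ∧ e = -b ∧ d = c := by
  -- products of self-dual and anti-self-dual components vanish
  have k1 : (a - f) * (a + f) = 0 := by nlinarith
  have k2 : (b + e) * (b - e) = 0 := by nlinarith
  have k3 : (c - d) * (c + d) = 0 := by nlinarith
  have k4 : (a - f) * (b - e) = 0 := by nlinarith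
  have k5 : (a - f) * (c + d) = 0 := by nlinarith
  have k6 : (b + e) * (a + f) = 0 := by nlinarith
  have k7 : (b + e) * (c + d) = 0 := by nlinarith
  have k8 : (c - d) * (a + f) = 0 := by nlinarith
  have k9 : (c - d) * (b - e) = 0 := by nlinarith
  have hs : (a + f) ^ 2 + (b - e) ^ 2 + (c + d) ^ 2 = 2 + 2 * (a * f - b * e + c * d) := by
    nlinarith
  have hpos : 0 < (a + f) ^ 2 + (b - e) ^ 2 + (c + d) ^ 2 := by rw [hs]; linarith
  have key : ∀ x : ℝ, x * (a + f) = 0 → x * (b - e) = 0 → x * (c + d) = 0 → x = 0 := by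
    intro x h1 h2 h3
    have h4 : x * ((a + f) ^ 2 + (b - e) ^ 2 + (c + d) ^ 2) = 0 := by
      linear_combination (a + f) * h1 + (b - e) * h2 + (c + d) * h3
    exact (mul_eq_zero.1 h4).resolve_right hpos.ne'
  refine ⟨?_, ?_, ?_⟩
  · have := key (a - f) k1 k4 k5
    linarith
  · have := key (b + e) k6 k2 k7
    linarith
  · have := key (c - d) k8 k9 k3
    linarith

/-- the Pfaffian of the matrix of a two-form in a frame -/
def pf {E : Type} [AddCommGroup E] [Module ℝ E] [TopologicalSpace E] (α : E [⋀^Fin 2]→L[ℝ] ℝ)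
    (e : Fin 4 → E) : ℝ :=
  α ![e 0, e 1] * α ![e 2, e 3] - α ![e 0, e 2] * α ![e 1, e 3] + α ![e 0, e 3] * α ![e 1, e 2]

/-- the polarization of the Pfaffian -/
def polar (α β : (V 2) [⋀^Fin 2]→L[ℝ] ℝ) (e : Fin 4 → V 2) : ℝ :=
  α ![e 0, e 1] * β ![e 2, e 3] - α ![e 0, e 2] * β ![e 1, e 3] + α ![e 0, e 3] * β ![e 1, e 2] +
  β ![e 0, e 1] * α ![e 2, e 3] - β ![e 0, e 2] * α ![e 1, e 3] + β ![e 0, e 3] * α ![e 1, e 2]

theorem star_lemma {α β : (V 2) [⋀^Fin 2]→L[ℝ] ℝ}
    (hα : ∀ h k, α ![Complex.I • h, Complex.I • k] = α ![h, k])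
    (hβ : ∀ h k, β ![Complex.I • h, Complex.I • k] = β ![h, k])
    (hP : ∀ e, polar α β e = 0) {e : Fin 4 → V 2}
    (he : ∀ i j, α ![e i, Complex.I • e j] = if i = j then 1 else 0) (hpf : 0 < pf α e) :
    α ![e 2, e 3] = α ![e 0, e 1] ∧ β ![e 2, e 3] = - β ![e 0, e 1] := by
  have hII : ∀ x : V 2, Complex.I • Complex.I • x = -x := by
    intro x
    rw [smul_smul, Complex.I_mul_I, neg_one_smul]
  -- `e` is a basis
  have hli : LinearIndependent ℝ e := by
    rw [Fintype.linearIndependent_iff]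
    intro g hg j
    have h1 : bil α (∑ i, g i • e i) (Complex.I • e j) = 0 := by rw [hg]; simp
    rw [map_sum, LinearMap.sum_apply] at h1
    simp only [map_smul, LinearMap.smul_apply, bil_apply, he, smul_eq_mul, mul_ite, mul_one,
      mul_zero, Finset.sum_ite_eq', Finset.mem_univ, if_true] at h1
    exact h1
  have hcard : Fintype.card (Fin 4) = Module.finrank ℝ (V 2) := by
    rw [finrank_V]; simp
  set B := basisOfLinearIndependentOfCardEqFinrank hli hcard with hB
  have hBe : ∀ i, B i = e i := fun i => by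
    rw [hB, coe_basisOfLinearIndependentOfCardEqFinrank]
  set a : Fin 4 → Fin 4 → ℝ := fun i j => α ![e i, e j] with ha
  set b : Fin 4 → Fin 4 → ℝ := fun i j => β ![e i, e j] with hb
  have hI : ∀ i, Complex.I • e i = ∑ j, a i j • e j := by
    intro i
    have h1 := B.sum_repr (Complex.I • e i)
    have h2 : ∀ j, B.repr (Complex.I • e i) j = a i j := by
      intro j
      have h3 : bil α (Complex.I • e i) (Complex.I • e j) = a i j := hα _ _
      rw [← h1, map_sum, LinearMap.sum_apply] at h3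
      simp only [map_smul, LinearMap.smul_apply, bil_apply, hBe, he, smul_eq_mul, mul_ite,
        mul_one, mul_zero, Finset.sum_ite_eq', Finset.mem_univ, if_true] at h3
      exact h3
    rw [← h1]
    exact Finset.sum_congr rfl fun j _ => by rw [h2, hBe]
  have hrow : ∀ i k, ∑ j, a i j * a k j = if i = k then 1 else 0 := by
    intro i k
    have h1 : bil α (Complex.I • e i) (Complex.I • (Complex.I • e k)) = if i = k then 1 else 0 := by
      rw [bil_apply, hα]
      exact he i k
    rw [hI i, hI k, Finset.smul_sum] at h1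
    have h2 : ∀ j l, bil α (e j) (Complex.I • (a k l • e l)) = if j = l then a k l else 0 := by
      intro j l
      rw [smul_comm, map_smul, bil_apply, he, smul_eq_mul]
      split_ifs <;> simp
    simp only [map_sum, LinearMap.sum_apply, map_smul, LinearMap.smul_apply, h2] at h1
    rw [← h1, Finset.sum_comm]
    refine Finset.sum_congr rfl fun j _ => ?_
    simp
  have hcomm : ∀ i j, ∑ k, a i k * b k j + ∑ k, a j k * b i k = 0 := by
    intro i j
    have h1 : bil β (Complex.I • e i) (e j) = ∑ k, a i k * b k j := by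
      rw [hI i, map_sum, LinearMap.sum_apply]
      refine Finset.sum_congr rfl fun k _ => ?_
      rw [map_smul, LinearMap.smul_apply, smul_eq_mul]
      rfl
    have h2 : bil β (e i) (Complex.I • e j) = ∑ k, a j k * b i k := by
      rw [hI j, map_sum]
      refine Finset.sum_congr rfl fun k _ => ?_
      rw [map_smul, smul_eq_mul]
      rfl
    have h3 : bil β (Complex.I • e i) (e j) = - bil β (e i) (Complex.I • e j) := by
      rw [bil_apply, bil_apply, ← hβ (Complex.I • e i) (e j), hII]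
      have := alt_smul β (-1) (e i) (Complex.I • e j)
      rw [neg_one_smul] at this
      rw [this]; ring
    rw [← h1, ← h2, h3]
    ring
  have aS : ∀ i j, a i j = - a j i := fun i j => alt_swap α _ _
  have bS : ∀ i j, b i j = - b j i := fun i j => alt_swap β _ _
  have a0 : ∀ i, a i i = 0 := fun i => by have := aS i i; linarith
  have b0 : ∀ i, b i i = 0 := fun i => by have := bS i i; linarith
  have hPe := hP e
  have q01 : α ![e 0, e 1] = a 0 1 := rfl
  have q02 : α ![e 0, e 2] = a 0 2 := rfl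
  have q03 : α ![e 0, e 3] = a 0 3 := rfl
  have q12 : α ![e 1, e 2] = a 1 2 := rfl
  have q13 : α ![e 1, e 3] = a 1 3 := rfl
  have q23 : α ![e 2, e 3] = a 2 3 := rfl
  have r01 : β ![e 0, e 1] = b 0 1 := rfl
  have r02 : β ![e 0, e 2] = b 0 2 := rfl
  have r03 : β ![e 0, e 3] = b 0 3 := rfl
  have r12 : β ![e 1, e 2] = b 1 2 := rfl
  have r13 : β ![e 1, e 3] = b 1 3 := rfl
  have r23 : β ![e 2, e 3] = b 2 3 := rfl
  unfold polar at hPe
  unfold pf at hpf
  rw [q01, q02, q03, q12, q13, q23, r01, r02, r03, r12, r13, r23] at hPe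
  rw [q01, q02, q03, q12, q13, q23] at hpf
  rw [q01, q23, r01, r23]
  have g00 := hrow 0 0
  have g11 := hrow 1 1
  have g22 := hrow 2 2
  have g33 := hrow 3 3
  have g01 := hrow 0 1
  have g02 := hrow 0 2
  have g03 := hrow 0 3
  have g12 := hrow 1 2
  have g13 := hrow 1 3
  have g23 := hrow 2 3
  have c01 := hcomm 0 1
  have c02 := hcomm 0 2
  have c03 := hcomm 0 3
  have c12 := hcomm 1 2
  have c13 := hcomm 1 3
  have c23 := hcomm 2 3
  simp only [Fin.sum_univ_four, aS 1 0, aS 2 0, aS 3 0, aS 2 1, aS 3 1, aS 3 2, a0] at g00 g11 g22 g33 g01 g02 g03 g12 g13 g23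
  simp only [Fin.sum_univ_four, aS 1 0, aS 2 0, aS 3 0, aS 2 1, aS 3 1, aS 3 2, a0,
    bS 1 0, bS 2 0, bS 3 0, bS 2 1, bS 3 1, bS 3 2, b0] at c01 c02 c03 c12 c13 c23
  simp at g00 g11 g22 g33 g01 g02 g03 g12 g13 g23
  obtain ⟨m1, m2, m3⟩ := poly_a (a := a 0 1) (b := a 0 2) (c := a 0 3) (d := a 1 2) (e := a 1 3)
    (f := a 2 3) (by linarith) (by linarith) (by linarith) (by linarith) (by linarith)
    (by linarith) (by linarith) (by linarith) (by linarith) (by linarith) hpf
  refine ⟨m1, ?_⟩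
  simp only [m1, m2, m3] at hPe c01 c02 c03 c12 c13 c23
  -- the self-dual part of `β` is proportional to `α` and orthogonal to it
  set A := a 0 1
  set B' := a 0 2
  set C := a 0 3
  have hn : A ^ 2 + B' ^ 2 + C ^ 2 = 1 := by linarith
  have x1 : (b 0 1 + b 2 3) * B' = (b 0 2 - b 1 3) * A := by linarith
  have x2 : (b 0 1 + b 2 3) * C = (b 0 3 + b 1 2) * A := by linarith
  have x3 : A * (b 0 1 + b 2 3) + B' * (b 0 2 - b 1 3) + C * (b 0 3 + b 1 2) = 0 := by linarith
  have x4 : b 0 1 + b 2 3 = 0 := by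
    linear_combination (-(b 0 1 + b 2 3)) * hn + B' * x1 + C * x2 + A * x3
  linarith

end Pool.Agent.X168.HA
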