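import Pool.Agent.X168.HA.BilGlue
import Pool.Agent.X168.HA.Star

/-! Rotation invariant forms and metrics on the connected sum of two projective spaces. -/

set_option autoImplicit false

open Set Filter Topology
open scoped Manifold ContDiff ComplexConjugate

noncomputable section

namespace Pool.Agent.X168.HA

open Pool.Agent.X168.BU

variable {d : ℕ}

/-- the data of a rotation invariant form -/
structure Prof where
  /-- the regular part near the first line -/
  p : ℝ → ℝ
  /-- the area of the first line -/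
  e : ℝ
  /-- the regular part near the second line -/
  m : ℝ → ℝ
  /-- the area of the second line -/
  e' : ℝ
  smp : ∀ r, 0 ≤ r → ContDiffAt ℝ ∞ p r
  smm : ∀ r, 0 ≤ r → ContDiffAt ℝ ∞ m r
  eq : ∀ r, 0 < r → m r + e' * r⁻¹ = (p r⁻¹ + e * (r⁻¹)⁻¹) * (r⁻¹) ^ 2

/-- the profile function -/
def Prof.f (P : Prof) (r : ℝ) : ℝ := P.p r + P.e * r⁻¹

theorem Prof.smf (P : Prof) {r : ℝ} (hr : 0 < r) : ContDiffAt ℝ ∞ P.f r :=
  (P.smp r hr.le).add (contDiffAt_const.mul (contDiffAt_inv' hr))

/-- the domains of the coordinates -/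
def hU : Option (Fin d ⊕ Fin d) → Set (V d)
  | none => {0}ᶜ
  | some _ => univ

/-- the coordinates of the connected sum -/
def hK {W : Type} (i j : CP d → W) : Option (Fin d ⊕ Fin d) → V d → W
  | none => fun v => i (aff none v)
  | some (Sum.inl k) => fun c => j (aff (some k) (Tk k c))
  | some (Sum.inr k) => fun c => i (aff (some k) c)

/-- the local forms -/
def hS (P : Prof) : Option (Fin d ⊕ Fin d) → V d → (V d) [⋀^Fin 2]→L[ℝ] ℝ
  | none => Lam P.f
  | some (Sum.inl k) => fun c => pull (be k) (Lam P.p) c + P.e • pull (Zk k) Fs c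
  | some (Sum.inr k) => sC (Lam P.m) P.e' k

/-- compatibility of all local forms -/
def RH {W : Type} (i j : CP d → W) (l : Option (Fin d ⊕ Fin d)) (z : V d)
    (l' : Option (Fin d ⊕ Fin d)) (z' : V d) : Prop :=
  ∃ h : V d → V d, ContDiffAt ℝ ∞ h z ∧ CommI (fderiv ℝ h z) ∧ h z = z' ∧
    (∀ᶠ t in 𝓝 z, hK i j l t = hK i j l' (h t)) ∧
    ∀ P : Prof, hS P l z = (hS P l' z').compContinuousLinearMap (fderiv ℝ h z)

theorem CommI.comp {L M : V d →L[ℝ] V d} (hL : CommI L) (hM : CommI M) : CommI (L.comp M) := by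
  intro x
  change L (M _) = Complex.I • L (M x)
  rw [hM, hL]

theorem RH.trans {W : Type} {i j : CP d → W} {l l' l'' : Option (Fin d ⊕ Fin d)}
    {z z' z'' : V d} (h1 : RH i j l z l' z') (h2 : RH i j l' z' l'' z'') : RH i j l z l'' z'' := by
  obtain ⟨g, a1, a0, rfl, a3, a4⟩ := h1
  obtain ⟨f, b1, b0, rfl, b3, b4⟩ := h2
  have e : fderiv ℝ (fun t => f (g t)) z = (fderiv ℝ f (g z)).comp (fderiv ℝ g z) :=
    fderiv_comp z (b1.differentiableAt (by simp)) (a1.differentiableAt (by simp))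
  refine ⟨fun t => f (g t), b1.comp z a1, ?_, rfl, ?_, ?_⟩
  · rw [e]
    exact b0.comp a0
  · filter_upwards [a3, a1.continuousAt.tendsto b3] with t c1 c2
    rw [c1]
    exact c2
  · intro P
    rw [a4, b4, e]
    ext v
    rfl

theorem RH.symm {W : Type} [TopologicalSpace W] [ChartedSpace (V d) W] {i j : CP d → W}
    {l l' : Option (Fin d ⊕ Fin d)} {z z' : V d} (h1 : RH i j l z l' z')
    (hi : LD d (hK i j l) z) (hj : LD d (hK i j l') z') : RH i j l' z' l z := by
  obtain ⟨g, a1, a0, rfl, a3, a4⟩ := h1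
  have hz : hK i j l z = hK i j l' (g z) := a3.self_of_nhds
  obtain ⟨f, b1, b2, b3⟩ := hj.trans hi hz.symm
  have hj' := hj
  obtain ⟨_, q, c2, c3, c4, c5⟩ := hj
  have hf : Tendsto f (𝓝 (g z)) (𝓝 z) := by
    have := b1.continuousAt.tendsto
    rwa [b2] at this
  have hg : Tendsto g (𝓝 z) (𝓝 (g z)) := a1.continuousAt
  have e1 : ∀ᶠ t in 𝓝 (g z), g (f t) = t := by
    have d1 : ∀ᶠ t in 𝓝 (g z), hK i j l (f t) = hK i j l' (g (f t)) := hf a3
    have d2 : ∀ᶠ t in 𝓝 (g z), q (hK i j l' (g (f t))) = g (f t) := (hg.comp hf) c5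
    filter_upwards [b3, d1, d2, c5] with t k1 k2 k3 k4
    rw [← k3, ← k2, ← k1, k4]
  have a1' : ContDiffAt ℝ ∞ g (f (g z)) := by rw [b2]; exact a1
  have e2 : (fderiv ℝ g z).comp (fderiv ℝ f (g z)) = ContinuousLinearMap.id ℝ (V d) := by
    have k1 : fderiv ℝ (fun t => g (f t)) (g z) = (fderiv ℝ g (f (g z))).comp (fderiv ℝ f (g z)) :=
      fderiv_comp (g z) (a1'.differentiableAt (by simp)) (b1.differentiableAt (by simp))
    rw [b2] at k1
    rw [← k1]
    have k2 : (fun t => g (f t)) =ᶠ[𝓝 (g z)] id := e1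
    rw [k2.fderiv_eq, fderiv_id]
  refine ⟨f, b1, ?_, b2, b3, ?_⟩
  · intro x
    have hLin : ((fderiv ℝ g z : V d →L[ℝ] V d) : V d →ₗ[ℝ] V d) ∘ₗ
        ((fderiv ℝ f (g z) : V d →L[ℝ] V d) : V d →ₗ[ℝ] V d) = LinearMap.id :=
      LinearMap.ext fun y => congrArg (fun L : V d →L[ℝ] V d => L y) e2
    have hLin2 := (LinearMap.comp_eq_id_comm ℝ (V d)).1 hLin
    have k1 : ∀ y, fderiv ℝ f (g z) (fderiv ℝ g z y) = y := fun y =>
      congrArg (fun L : V d →ₗ[ℝ] V d => L y) hLin2
    have k2 : ∀ y, fderiv ℝ g z (fderiv ℝ f (g z) y) = y := fun y =>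
      congrArg (fun L : V d →L[ℝ] V d => L y) e2
    rw [← k1 (Complex.I • fderiv ℝ f (g z) x), a0, k2]
  · intro P
    rw [a4]
    have e3 : ((hS P l' (g z)).compContinuousLinearMap (fderiv ℝ g z)).compContinuousLinearMap
        (fderiv ℝ f (g z)) =
        (hS P l' (g z)).compContinuousLinearMap ((fderiv ℝ g z).comp (fderiv ℝ f (g z))) := by
      ext v; rfl
    rw [e3, e2]
    ext v
    rfl

/-! ### The transition maps -/

section conn

variable {W : Type} [TopologicalSpace W] [ChartedSpace (V d) W] {i j : CP d → W}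

theorem hgl (h : IsConnectedSum (aff none) (aff none) i j) {v : V d} (hv : v ≠ 0) :
    i (aff none v) = j (aff none (inversion v)) :=
  (h.glue _ _ (fun e => hv (aff_injective none e))
    fun e => inversion_ne hv (aff_injective none e)).2 ⟨v, hv, rfl, rfl⟩

theorem Lam_add {f g : ℝ → ℝ} {r : ℝ} {v : V d} (hf : ContDiffAt ℝ ∞ f (nsq v))
    (hg : ContDiffAt ℝ ∞ g (nsq v)) :
    Lam (fun x => f x + r * g x) v = Lam f v + r • Lam g v := by
  apply ext2
  intro h k
  have h1 : ContDiffAt ℝ ∞ (fun x => f x + r * g x) (nsq v) := hf.add (contDiffAt_const.mul hg)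
  have h2 : deriv (fun x => f x + r * g x) (nsq v) = deriv f (nsq v) + r * deriv g (nsq v) := by
    rw [deriv_fun_add (hf.differentiableAt (by simp))
      ((hg.differentiableAt (by simp)).const_mul r), deriv_const_mul_field]
  rw [Lam_apply h1, ContinuousAlternatingMap.add_apply, ContinuousAlternatingMap.smul_apply,
    Lam_apply hf, Lam_apply hg, h2, smul_eq_mul]
  ring

theorem Lam_f (P : Prof) {v : V d} (hv : v ≠ 0) : Lam P.f v = Lam P.p v + P.e • Fs v :=
  Lam_add (P.smp _ (nsq_nonneg v)) (contDiffAt_inv' (nsq_pos hv))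

theorem contDiff_Lam {f : ℝ → ℝ} (hf : ∀ r, 0 ≤ r → ContDiffAt ℝ ∞ f r) :
    ContDiff ℝ ∞ (Lam f : V d → _) := by
  rw [contDiff_iff_contDiffAt]
  exact fun v => contDiffAt_Lam (hf _ (nsq_nonneg v))

theorem rEA (h : IsConnectedSum (aff none) (aff none) i j) {k : Fin d} {c : V d} (hc : c k ≠ 0) :
    RH i j (some (Sum.inl k)) c none (be k c) := by
  refine ⟨be k, (contDiff_be k).contDiffAt, commI_of_diff (diff_be k c), rfl, ?_, ?_⟩
  · have h1 : ∀ᶠ t : V d in 𝓝 c, t k ≠ 0 :=
      (isOpen_ne_fun (continuous_apply k) continuous_const).mem_nhds hc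
    filter_upwards [h1] with t ht
    change j (aff (some k) (Tk k t)) = i (aff none (be k t))
    rw [hgl h (be_ne ht), ← bk_Tk, ← aff_bk (Tk_ne.2 ht)]
  · intro P
    have h1 : pull (be k) Fs c = pull (Zk k) Fs c :=
      pull_Fs_scale (t := fun x : V d => x k) ((contDiff_Zk k).contDiffAt.differentiableAt (by simp))
        (differentiableAt_apply k c) (Zk_ne k c) hc
    change pull (be k) (Lam P.p) c + P.e • pull (Zk k) Fs c = pull (be k) (Lam P.f) c
    rw [← h1]
    apply ext2
    intro x y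
    rw [ContinuousAlternatingMap.add_apply, ContinuousAlternatingMap.smul_apply, pull_apply,
      pull_apply, pull_apply, Lam_f P (be_ne hc)]
    rfl

/-- the change of coordinates near the second line -/
def li (k : Fin d) (c : V d) : V d := (c k)⁻¹ • Zk k c

theorem li_eq (k : Fin d) (c : V d) : li k c = inversion (bk k c) := by
  unfold bk
  rw [inversion_inversion]
  rfl

theorem aff_li {k : Fin d} {c : V d} (hc : c k ≠ 0) : aff none (li k c) = aff (some k) c :=
  aff_line none (hvec_ne (some k) c) hc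

theorem li_ne {k : Fin d} {c : V d} (hc : c k ≠ 0) : li k c ≠ 0 :=
  smul_ne_zero (inv_ne_zero hc) (Zk_ne k c)

omit [TopologicalSpace W] [ChartedSpace (V d) W] in
theorem rLA (i j : CP d → W) {k : Fin d} {c : V d} (hc : c k ≠ 0) :
    RH i j (some (Sum.inr k)) c none (li k c) := by
  have hs : ContDiffAt ℝ ∞ (li k : V d → V d) c :=
    ((contDiff_apply ℝ ℂ k).contDiffAt.inv hc).smul (contDiff_Zk k).contDiffAt
  refine ⟨li k, hs, commI_of_diff (((diff_coord k c).inv hc).smul (diff_Zk k c)), rfl, ?_, ?_⟩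
  · have h1 : ∀ᶠ t : V d in 𝓝 c, t k ≠ 0 :=
      (isOpen_ne_fun (continuous_apply k) continuous_const).mem_nhds hc
    filter_upwards [h1] with t ht
    change i (aff (some k) t) = i (aff none (li k t))
    rw [aff_li ht]
  · intro P
    have hb := bk_ne hc
    have hp := nsq_pos hb
    have e1 : pull (li k) (Lam P.f) c = (pull inversion (Lam P.f) (bk k c)).compContinuousLinearMap
        (fderiv ℝ (bk k) c) :=
      pull_comp ((contDiffAt_inversion hb).differentiableAt (by simp))
        ((contDiff_bk k).contDiffAt.differentiableAt (by simp))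
        (Eventually.of_forall fun t => li_eq k t)
    have e2 : pull inversion (Lam P.f : V d → _) (bk k c) =
        Lam (fun r => P.m r + P.e' * r⁻¹) (bk k c) := by
      refine pull_inversion_Lam hb (P.smf (inv_pos.2 hp)) ?_
      filter_upwards [isOpen_Ioi.mem_nhds hp] with r hr
      exact P.eq r hr
    have e3 : Lam (fun r => P.m r + P.e' * r⁻¹) (bk k c) =
        Lam P.m (bk k c) + P.e' • Fs (bk k c) :=
      Lam_add (P.smm _ (nsq_nonneg _)) (contDiffAt_inv' hp)
    change sC (Lam P.m) P.e' k c = pull (li k) (Lam P.f) c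
    rw [e1, e2, e3, sC_sB hc]
    rfl

omit [TopologicalSpace W] [ChartedSpace (V d) W] in
theorem rEE {k l : Fin d} {c : V d} (hc : Zk k c l ≠ 0) :
    RH i j (some (Sum.inl k)) c (some (Sum.inl l)) (HE k l c) := by
  have hH : DifferentiableAt ℝ (HE k l : V d → V d) c :=
    (contDiffAt_HE hc).differentiableAt (by simp)
  refine ⟨HE k l, contDiffAt_HE hc, commI_of_diff (diff_HE hc), rfl, ?_, ?_⟩
  · filter_upwards [eventually_Zk hc] with t ht
    change j (aff (some k) (Tk k t)) = j (aff (some l) (Tk l (HE k l t)))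
    rw [Tk_HE ht]
    congr 1
    refine (aff_line (some l) (hvec_ne (some k) (Tk k t)) ?_).symm
    change Zk k (Tk k t) l ≠ 0
    rwa [Zkl_Tk]
  · intro P
    have e1 : pull (be k) (Lam P.p) c = (pull (be l) (Lam P.p) (HE k l c)).compContinuousLinearMap
        (fderiv ℝ (HE k l) c) :=
      pull_comp ((contDiff_be l).contDiffAt.differentiableAt (by simp)) hH
        ((eventually_Zk hc).mono fun x hx => (be_HE hx).symm)
    have e2 : pull (fun x => (Zk k x l)⁻¹ • Zk k x) Fs c =
        (pull (Zk l) Fs (HE k l c)).compContinuousLinearMap (fderiv ℝ (HE k l) c) :=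
      pull_comp ((contDiff_Zk l).contDiffAt.differentiableAt (by simp)) hH
        ((eventually_Zk hc).mono fun x hx => (Zk_HE hx).symm)
    have h3 : ContDiff ℝ ∞ (fun x : V d => Zk k x l) :=
      (contDiff_apply ℝ ℂ l).comp (contDiff_Zk k)
    have e3 : pull (fun x => (Zk k x l)⁻¹ • Zk k x) Fs c = pull (Zk k) Fs c := by
      refine pull_Fs_scale ((contDiff_Zk k).contDiffAt.differentiableAt (by simp)) ?_ (Zk_ne k c)
        (inv_ne_zero hc)
      exact (h3.contDiffAt.inv hc).differentiableAt (by simp)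
    change pull (be k) (Lam P.p) c + P.e • pull (Zk k) Fs c =
      (pull (be l) (Lam P.p) (HE k l c) + P.e • pull (Zk l) Fs (HE k l c)).compContinuousLinearMap
        (fderiv ℝ (HE k l) c)
    rw [e1, ← e3, e2]
    rfl

omit [TopologicalSpace W] [ChartedSpace (V d) W] in
theorem rLL {k l : Fin d} {c : V d} (hc : Zk k c l ≠ 0) :
    RH i j (some (Sum.inr k)) c (some (Sum.inr l)) (Hk k l c) := by
  refine ⟨Hk k l, contDiffAt_Hk hc, commI_of_diff (diff_Hk hc), rfl, ?_, ?_⟩
  · filter_upwards [eventually_Zk hc] with t ht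
    change i (aff (some k) t) = i (aff (some l) (Hk k l t))
    congr 1
    exact (aff_line (some l) (hvec_ne (some k) t) ht).symm
  · intro P
    change sC (Lam P.m) P.e' k c = _
    rw [sC_trans hc]
    rfl

omit [TopologicalSpace W] [ChartedSpace (V d) W] in
theorem rAA (v : V d) : RH i j none v none v := by
  refine ⟨id, contDiffAt_id, ?_, rfl, Eventually.of_forall fun t => rfl, ?_⟩
  · rw [fderiv_id]
    intro x
    rfl
  · intro P
    rw [fderiv_id]
    ext v
    rfl

theorem hld (h : IsConnectedSum (aff none) (aff none) i j) : ∀ l, ∀ z ∈ hU l,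
    LD d (hK i j l) z := by
  rintro (_ | k | k) z hz
  · exact (h.left.ld fun e => hz (aff_injective none e)).comp
      ((isOpenEmb_aff none).ld (mem_univ z))
  · exact ((h.right.ld (aff_some_ne k _)).comp
      ((isOpenEmb_aff (some k)).ld (mem_univ (Tk k z)))).comp (ld_Tk k z)
  · exact (h.left.ld (aff_some_ne k z)).comp ((isOpenEmb_aff (some k)).ld (mem_univ z))

theorem cls (h : IsConnectedSum (aff none) (aff none) i j) (l : Option (Fin d ⊕ Fin d))
    {z : V d} (hz : z ∈ hU l) :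
    (∃ v, v ≠ 0 ∧ RH i j l z none v) ∨ (∃ k, l = some (Sum.inl k) ∧ z k = 0) ∨
      (∃ k, l = some (Sum.inr k) ∧ z k = 0) := by
  rcases l with (_ | k | k)
  · exact Or.inl ⟨z, hz, rAA z⟩
  · by_cases hk : z k = 0
    · exact Or.inr (Or.inl ⟨k, rfl, hk⟩)
    · exact Or.inl ⟨be k z, be_ne hk, rEA h hk⟩
  · by_cases hk : z k = 0
    · exact Or.inr (Or.inr ⟨k, rfl, hk⟩)
    · exact Or.inl ⟨li k z, li_ne hk, rLA i j hk⟩

theorem no_AE (h : IsConnectedSum (aff none) (aff none) i j) {k : Fin d} {v c : V d}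
    (hv : v ≠ 0) (hc : c k = 0) : i (aff none v) ≠ j (aff (some k) (Tk k c)) := by
  intro e
  rw [hgl h hv] at e
  have e1 : aff none (inversion v) = aff (some k) (Tk k c) :=
    h.right.injOn (fun e => inversion_ne hv (aff_injective none e)) (aff_some_ne k _) e
  exact Tk_ne.1 (bk_of_eq hv e1.symm).1 hc

theorem no_AL (h : IsConnectedSum (aff none) (aff none) i j) {k : Fin d} {v c : V d}
    (hv : v ≠ 0) (hc : c k = 0) : i (aff none v) ≠ i (aff (some k) c) := by
  intro e
  have e1 : aff none v = aff (some k) c :=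
    h.left.injOn (fun e => hv (aff_injective none e)) (aff_some_ne k _) e
  rw [← inversion_inversion v] at e1
  exact (bk_of_eq (inversion_ne hv) e1.symm).1 hc

theorem no_LE (h : IsConnectedSum (aff none) (aff none) i j) {k l : Fin d} {c c' : V d}
    (hc' : c' l = 0) : i (aff (some k) c) ≠ j (aff (some l) (Tk l c')) := by
  intro e
  obtain ⟨u, hu, e1, e2⟩ := (h.glue _ _ (aff_some_ne k c) (aff_some_ne l _)).1 e
  exact Tk_ne.1 (bk_of_eq hu e2).1 hc'

theorem rel_EE (h : IsConnectedSum (aff none) (aff none) i j) {k l : Fin d} {c c' : V d}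
    (e : j (aff (some k) (Tk k c)) = j (aff (some l) (Tk l c'))) :
    RH i j (some (Sum.inl k)) c (some (Sum.inl l)) c' := by
  have e1 : aff (some k) (Tk k c) = aff (some l) (Tk l c') :=
    h.right.injOn (aff_some_ne k _) (aff_some_ne l _) e
  have e2 : Zk k c l ≠ 0 := by
    have k1 : aff (some k) (Tk k c) ∈ dom (some l) := by
      rw [e1, ← range_aff]; exact ⟨_, rfl⟩
    have k2 : Zk k (Tk k c) l ≠ 0 := (mk_mem_dom (some l) (hvec_ne (some k) _)).1 k1
    rwa [Zkl_Tk] at k2
  have e3 : HE k l c = c' := by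
    have k1 := congrArg (co (some l)) e1
    rw [co_aff] at k1
    have k2 : co (some l) (aff (some k) (Tk k c)) = Hk k l (Tk k c) := co_line _ _
    rw [k2, ← Tk_HE e2] at k1
    have k3 := congrArg (Tki l) k1
    rwa [Tki_Tk, Tki_Tk] at k3
  rw [← e3]
  exact rEE e2

theorem rel_LL (h : IsConnectedSum (aff none) (aff none) i j) {k l : Fin d} {c c' : V d}
    (e : i (aff (some k) c) = i (aff (some l) c')) :
    RH i j (some (Sum.inr k)) c (some (Sum.inr l)) c' := by
  have e1 : aff (some k) c = aff (some l) c' :=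
    h.left.injOn (aff_some_ne k _) (aff_some_ne l _) e
  have e2 : Zk k c l ≠ 0 := by
    have k1 : aff (some k) c ∈ dom (some l) := by
      rw [e1, ← range_aff]; exact ⟨_, rfl⟩
    exact (mk_mem_dom (some l) (hvec_ne (some k) _)).1 k1
  have e3 : Hk k l c = c' := by
    have k1 := congrArg (co (some l)) e1
    rw [co_aff] at k1
    rw [← k1]
    exact (co_line _ _).symm
  rw [← e3]
  exact rLL e2

theorem rel_all (h : IsConnectedSum (aff none) (aff none) i j) (l l' : Option (Fin d ⊕ Fin d))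
    (z : V d) (hz : z ∈ hU l) (z' : V d) (hz' : z' ∈ hU l') (e : hK i j l z = hK i j l' z') :
    RH i j l z l' z' := by
  rcases cls h l hz with ⟨v, hv, r⟩ | ⟨k, rfl, hk⟩ | ⟨k, rfl, hk⟩ <;>
    rcases cls h l' hz' with ⟨v', hv', r'⟩ | ⟨k', rfl, hk'⟩ | ⟨k', rfl, hk'⟩
  · obtain ⟨_, _, _, rfl, q, _⟩ := id r
    obtain ⟨_, _, _, rfl, q', _⟩ := id r'
    have e1 := q.self_of_nhds
    have e2 := q'.self_of_nhds
    rw [e1, e2] at e
    have e3 := aff_injective none (h.left.injOn (fun e => hv (aff_injective none e))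
      (fun e => hv' (aff_injective none e)) e)
    rw [← e3] at r'
    exact r.trans (r'.symm (hld h l' z' hz') (hld h none _ hv))
  · obtain ⟨_, _, _, rfl, q, _⟩ := id r
    rw [q.self_of_nhds] at e
    exact absurd e (no_AE h hv hk')
  · obtain ⟨_, _, _, rfl, q, _⟩ := id r
    rw [q.self_of_nhds] at e
    exact absurd e (no_AL h hv hk')
  · obtain ⟨_, _, _, rfl, q, _⟩ := id r'
    rw [q.self_of_nhds] at e
    exact absurd e.symm (no_AE h hv' hk)
  · exact rel_EE h e
  · exact absurd e.symm (no_LE h hk)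
  · obtain ⟨_, _, _, rfl, q, _⟩ := id r'
    rw [q.self_of_nhds] at e
    exact absurd e.symm (no_AL h hv' hk)
  · exact absurd e (no_LE h hk')
  · exact rel_LL h e

theorem hcov (h : IsConnectedSum (aff none) (aff none) i j) (w : W) :
    ∃ l, ∃ z ∈ hU l, hK i j l z = w := by
  rcases h.cover w with ⟨x, hx, rfl⟩ | ⟨y, hy, rfl⟩
  · obtain ⟨l, hl⟩ := exists_dom x
    rw [← aff_co l hl] at hx ⊢
    cases l with
    | none => exact ⟨none, co none x, fun e => hx (by rw [mem_singleton_iff.1 e]), rfl⟩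
    | some k => exact ⟨some (Sum.inr k), co (some k) x, mem_univ _, rfl⟩
  · obtain ⟨l, hl⟩ := exists_dom y
    rw [← aff_co l hl] at hy ⊢
    cases l with
    | none =>
      have hv : co none y ≠ 0 := fun e => hy (by rw [e])
      refine ⟨none, inversion (co none y), inversion_ne hv, ?_⟩
      change i (aff none _) = _
      rw [hgl h (inversion_ne hv), inversion_inversion]
    | some k =>
      refine ⟨some (Sum.inl k), Tki k (co (some k) y), mem_univ _, ?_⟩
      change j (aff (some k) (Tk k _)) = _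
      rw [Tk_Tki]

theorem hfam (h : IsConnectedSum (aff none) (aff none) i j) : Fam hU (hK i j) := by
  refine ⟨?_, hcov h, fun l z hz => (hld h l z hz).1, fun l z hz => (hld h l z hz).2⟩
  rintro (_ | _)
  · exact isOpen_compl_singleton
  · exact isOpen_univ

/-- a point of one of the three kinds -/
theorem hcov' (h : IsConnectedSum (aff none) (aff none) i j) (w : W) :
    (∃ v, v ≠ 0 ∧ hK i j none v = w) ∨
    (∃ k, ∃ c : V d, c k = 0 ∧ hK i j (some (Sum.inl k)) c = w) ∨
    (∃ k, ∃ c : V d, c k = 0 ∧ hK i j (some (Sum.inr k)) c = w) := by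
  obtain ⟨l, z, hz, rfl⟩ := hcov h w
  rcases cls h l hz with ⟨v, hv, r⟩ | ⟨k, rfl, hk⟩ | ⟨k, rfl, hk⟩
  · obtain ⟨_, _, _, rfl, q, _⟩ := r
    exact Or.inl ⟨_, hv, q.self_of_nhds.symm⟩
  · exact Or.inr (Or.inl ⟨k, z, hk, rfl⟩)
  · exact Or.inr (Or.inr ⟨k, z, hk, rfl⟩)

theorem contDiffOn_hS (P : Prof) (l : Option (Fin d ⊕ Fin d)) : ContDiffOn ℝ ∞ (hS P l) (hU l) := by
  rcases l with (_ | k | k)
  · exact fun v hv => (contDiffAt_Lam (P.smf (nsq_pos hv))).contDiffWithinAt
  · refine ContDiff.contDiffOn ?_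
    rw [contDiff_iff_contDiffAt]
    intro c
    have h1 : ContDiffAt ℝ ∞ (pull (be k) (Lam P.p)) c :=
      contDiffAt_pull (contDiff_be k).contDiffAt (contDiff_Lam P.smp).contDiffAt
    have h2 : ContDiffAt ℝ ∞ (pull (Zk k) (Fs : V d → _)) c :=
      contDiffAt_pull (contDiff_Zk k).contDiffAt (contDiffAt_Fs (Zk_ne k c))
    exact h1.add (h2.const_smul P.e)
  · exact (contDiff_sC (contDiff_Lam P.smm) k).contDiffOn

theorem closed_hS (P : Prof) (l : Option (Fin d ⊕ Fin d)) (z : V d) (hz : z ∈ hU l) :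
    extDeriv (hS P l) z = 0 := by
  rcases l with (_ | k | k)
  · exact closed_Lam (P.smf (nsq_pos hz))
  · have h1 : ContDiffAt ℝ ∞ (pull (be k) (Lam P.p)) z :=
      contDiffAt_pull (contDiff_be k).contDiffAt (contDiff_Lam P.smp).contDiffAt
    have h2 : ContDiffAt ℝ ∞ (pull (Zk k) (Fs : V d → _)) z :=
      contDiffAt_pull (contDiff_Zk k).contDiffAt (contDiffAt_Fs (Zk_ne k z))
    exact extDeriv_add' h1 h2 (closed_pull (contDiff_be k).contDiffAt
      (contDiff_Lam P.smp).contDiffAt (closed_Lam (P.smp _ (nsq_nonneg _))))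
      (closed_pull (contDiff_Zk k).contDiffAt (contDiffAt_Fs (Zk_ne k z)) (closed_Fs (Zk_ne k z)))
  · exact closed_sC (contDiff_Lam P.smm) (fun v => closed_Lam (P.smm _ (nsq_nonneg _))) k z

/-- the global form with the given profile -/
theorem exists_prof (h : IsConnectedSum (aff none) (aff none) i j) (P : Prof) :
    ∃ Ω : Form d W 2, IsSmooth Ω ∧ IsClosedForm Ω ∧
      ∀ l, ∀ z ∈ hU l, pb (hK i j l) Ω z = hS P l z := by
  refine exists_form (hfam h) (hS P) (contDiffOn_hS P) (closed_hS P) ?_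
  intro l l' z hz z' hz' e
  obtain ⟨f, f1, f2, f3, f4, f5⟩ := rel_all h l l' z hz z' hz' e
  exact ⟨f, f1, f3, f4, f5 P⟩

/-- the global bilinear form with the given profile -/
theorem exists_metric (h : IsConnectedSum (aff none) (aff none) i j) (P : Prof) :
    ∃ g : Bil d W, (∀ (U : Set (V d)) (φ : V d → W), IsOpen U →
      ContMDiffOn 𝓘(ℝ, V d) 𝓘(ℝ, V d) ∞ φ U → ContDiffOn ℝ ∞ (pb2 φ g) U) ∧
      ∀ l, ∀ z ∈ hU l, pb2 (hK i j l) g z = toG (hS P l z) := by
  refine exists_bil (hfam h) (fun l z => toG (hS P l z)) ?_ ?_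
  · intro l
    exact (contDiff_toG d).comp_contDiffOn (contDiffOn_hS P l)
  · intro l l' z hz z' hz' e
    obtain ⟨f, f1, f2, f3, f4, f5⟩ := rel_all h l l' z hz z' hz' e
    refine ⟨f, f1, f3, f4, ?_⟩
    change toG (hS P l z) = through (fderiv ℝ f z) (toG (hS P l' z'))
    rw [f5 P]
    ext u v
    change ((hS P l' z').compContinuousLinearMap (fderiv ℝ f z)) ![u, Complex.I • v] =
      hS P l' z' ![fderiv ℝ f z u, Complex.I • fderiv ℝ f z v]
    rw [ContinuousAlternatingMap.compContinuousLinearMap_apply, ← f2]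
    congr 1
    funext a
    fin_cases a <;> rfl

end conn

end Pool.Agent.X168.HA
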