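import Pool.Agent.X168.HA.Model

/-! Pointwise analysis of the rotation invariant forms in complex dimension two. -/

set_option autoImplicit false

open Set Filter Topology
open scoped Manifold ContDiff ComplexConjugate

noncomputable section

namespace Pool.Agent.X168.HA

open Pool.Agent.X168.BU

/-! ### Away from the two lines -/

theorem om2 (h k : V 2) : om h k = (h 0).re * (k 0).im - (h 0).im * (k 0).re +
    ((h 1).re * (k 1).im - (h 1).im * (k 1).re) := by
  simp [om, Fin.sum_univ_two]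
  try ring

theorem hm2_re (h k : V 2) : (hm h k).re = (h 0).re * (k 0).re + (h 0).im * (k 0).im +
    ((h 1).re * (k 1).re + (h 1).im * (k 1).im) := by
  simp [hm, Fin.sum_univ_two]

theorem nsq2 (h : V 2) : nsq h = (h 0).re ^ 2 + (h 0).im ^ 2 + ((h 1).re ^ 2 + (h 1).im ^ 2) := by
  simp only [nsq, Fin.sum_univ_two, ← Complex.normSq_eq_norm_sq, Complex.normSq_apply]
  ring

/-- the form `Re⟨v, ·⟩ ∧ om(v, ·)` -/
def tw (v h k : V 2) : ℝ := (hm v h).re * om v k - (hm v k).re * om v h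

theorem polar_om_tw (v a b c e : V 2) :
    om a b * tw v c e - om a c * tw v b e + om a e * tw v b c +
      tw v a b * om c e - tw v a c * om b e + tw v a e * om b c =
    nsq v * (om a b * om c e - om a c * om b e + om a e * om b c) := by
  simp only [tw, om2, hm2_re, nsq2]
  ring

theorem pf_tw (v a b c e : V 2) :
    tw v a b * tw v c e - tw v a c * tw v b e + tw v a e * tw v b c = 0 := by
  simp only [tw]
  ring

theorem polar_Lam {f g : ℝ → ℝ} {v : V 2} (hf : ContDiffAt ℝ ∞ f (nsq v))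
    (hg : ContDiffAt ℝ ∞ g (nsq v))
    (h : 2 * (f (nsq v) * g (nsq v)) + nsq v * (f (nsq v) * deriv g (nsq v) +
      deriv f (nsq v) * g (nsq v)) = 0) (e : Fin 4 → V 2) :
    polar (Lam f v) (Lam g v) e = 0 := by
  unfold polar
  simp only [Lam_apply hf, Lam_apply hg]
  have h1 := polar_om_tw v (e 0) (e 1) (e 2) (e 3)
  have h2 := pf_tw v (e 0) (e 1) (e 2) (e 3)
  simp only [tw] at h1 h2
  generalize (hm v (e 0)).re * om v (e 1) - (hm v (e 1)).re * om v (e 0) = t01 at *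
  generalize (hm v (e 0)).re * om v (e 2) - (hm v (e 2)).re * om v (e 0) = t02 at *
  generalize (hm v (e 0)).re * om v (e 3) - (hm v (e 3)).re * om v (e 0) = t03 at *
  generalize (hm v (e 1)).re * om v (e 2) - (hm v (e 2)).re * om v (e 1) = t12 at *
  generalize (hm v (e 1)).re * om v (e 3) - (hm v (e 3)).re * om v (e 1) = t13 at *
  generalize (hm v (e 2)).re * om v (e 3) - (hm v (e 3)).re * om v (e 2) = t23 at *
  generalize om (e 0) (e 1) = w01 at *
  generalize om (e 0) (e 2) = w02 at *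
  generalize om (e 0) (e 3) = w03 at *
  generalize om (e 1) (e 2) = w12 at *
  generalize om (e 1) (e 3) = w13 at *
  generalize om (e 2) (e 3) = w23 at *
  generalize f (nsq v) = F at *
  generalize g (nsq v) = G at *
  generalize deriv f (nsq v) = F' at *
  generalize deriv g (nsq v) = G' at *
  linear_combination (F * G' + F' * G) * h1 + 2 * F' * G' * h2 +
    (w01 * w23 - w02 * w13 + w03 * w12) * h

theorem Lam_I {d : ℕ} {f : ℝ → ℝ} {v : V d} (hf : ContDiffAt ℝ ∞ f (nsq v)) (h k : V d) :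
    Lam f v ![Complex.I • h, Complex.I • k] = Lam f v ![h, k] := by
  have h1 : om (Complex.I • h) (Complex.I • k) = om h k := by
    rw [← hm_im, ← hm_im, hm_smul_left, hm_smul_right, ← mul_assoc]
    simp
  rw [Lam_apply hf, Lam_apply hf, re_vI, re_vI, h1, om_vI, om_vI]
  ring

theorem pos_Lam {d : ℕ} {f : ℝ → ℝ} {v : V d} (hf : ContDiffAt ℝ ∞ f (nsq v))
    (h1 : 0 < f (nsq v)) (h2 : 0 < f (nsq v) + nsq v * deriv f (nsq v)) {h : V d} (hh : h ≠ 0) :
    0 < Lam f v ![h, Complex.I • h] := by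
  rw [Lam_tame hf]
  have hp := nsq_pos hh
  have hc := cauchy v h
  have hn : 0 ≤ ‖hm v h‖ ^ 2 := by positivity
  rcases le_total 0 (deriv f (nsq v)) with hd | hd
  · have := mul_nonneg hd hn
    have := mul_pos h1 hp
    linarith
  · have h3 : deriv f (nsq v) * (nsq v * nsq h) ≤ deriv f (nsq v) * ‖hm v h‖ ^ 2 :=
      mul_le_mul_of_nonpos_left hc hd
    have h4 := mul_pos h2 hp
    nlinarith

/-! ### On the two lines -/

/-- the form `Im (conj h_k · g_k)` -/
def xi (k : Fin 2) (h g : V 2) : ℝ := (h k).re * (g k).im - (h k).im * (g k).re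

theorem xi_eq (k : Fin 2) (h g : V 2) : (conj (h k) * g k).im = xi k h g := by
  unfold xi
  simp
  ring

theorem Fs_line {k : Fin 2} {c : V 2} (hc : c k = 0) (h g : V 2) :
    Fs (Zk k c) ![Pk k h, Pk k g] = xi (1 - k) h g / nsq (Zk k c) ^ 2 := by
  rw [Fs_apply (Zk_ne k c)]
  congr 1
  rw [← xi_eq]
  congr 1
  unfold Bf
  have hN : (nsq (Zk k c) : ℂ) = 1 + c (1 - k) * conj (c (1 - k)) := by
    rw [← hm_self]
    fin_cases k <;> simp [hm, Fin.sum_univ_two, Zk] <;> ring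
  rw [hN]
  fin_cases k <;> simp [hm, Fin.sum_univ_two, Zk, Pk_apply] <;> ring

theorem S_line {P : Prof} {k : Fin 2} {c : V 2} (hc : c k = 0) (h g : V 2) :
    hS P (some (Sum.inl k)) c ![h, g] =
      P.p 0 * nsq (Zk k c) * xi k h g + P.e / nsq (Zk k c) ^ 2 * xi (1 - k) h g := by
  change (pull (be k) (Lam P.p) c + P.e • pull (Zk k) Fs c) ![h, g] = _
  rw [ContinuousAlternatingMap.add_apply, ContinuousAlternatingMap.smul_apply, pull_apply,
    pull_apply, (hasFDerivAt_Zk k c).fderiv, Fs_line hc, be_zero hc]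
  have h0 : nsq (0 : V 2) = 0 := nsq_eq_zero.2 rfl
  rw [Lam_apply (by rw [h0]; exact P.smp 0 le_rfl), h0, fderiv_be, fderiv_be, hc]
  have h1 : ∀ x : V 2, (hm (0 : V 2) x).re = 0 := fun x => by simp [hm]
  rw [h1, h1, zero_smul, zero_smul, zero_add, zero_add, ← hm_im, hm_smul_left, hm_smul_right,
    hm_self, ← mul_assoc, Complex.im_mul_ofReal, xi_eq, smul_eq_mul]
  ring

theorem S_line' {P : Prof} {k : Fin 2} {c : V 2} (hc : c k = 0) (h g : V 2) :
    hS P (some (Sum.inr k)) c ![h, g] =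
      -(P.m 0) / nsq (Zk k c) * xi k h g + P.e' / nsq (Zk k c) ^ 2 * xi (1 - k) h g := by
  change (pull (bk k) (Lam P.m) c + P.e' • pull (Zk k) Fs c) ![h, g] = _
  rw [ContinuousAlternatingMap.add_apply, ContinuousAlternatingMap.smul_apply, pull_apply,
    pull_apply, (hasFDerivAt_Zk k c).fderiv, Fs_line hc, bk_zero hc]
  have h0 : nsq (0 : V 2) = 0 := nsq_eq_zero.2 rfl
  have hN := (nsq_pos (Zk_ne k c)).ne'
  rw [Lam_apply (by rw [h0]; exact P.smm 0 le_rfl), h0, fderiv_bk k hc, fderiv_bk k hc]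
  have h1 : ∀ x : V 2, (hm (0 : V 2) x).re = 0 := fun x => by simp [hm]
  have h2 : om ((conj (h k) / (nsq (Zk k c) : ℂ)) • Zk k c)
      ((conj (g k) / (nsq (Zk k c) : ℂ)) • Zk k c) = - (xi k h g / nsq (Zk k c)) := by
    rw [← hm_im, hm_smul_left, hm_smul_right, hm_self]
    have h3 : conj (conj (h k) / (nsq (Zk k c) : ℂ)) * (conj (g k) / (nsq (Zk k c) : ℂ) *
        (nsq (Zk k c) : ℂ)) = (h k * conj (g k)) * (((nsq (Zk k c))⁻¹ : ℝ) : ℂ) := by
      rw [map_div₀, Complex.conj_conj, Complex.conj_ofReal]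
      have := nz k c
      push_cast
      field_simp
    rw [h3, Complex.im_mul_ofReal]
    unfold xi
    simp
    ring
  rw [h1, h1, h2, smul_eq_mul]
  ring

/-! ### Forms `A xi_k + B xi_{1-k}` -/

theorem xi_I (k : Fin 2) (h g : V 2) : xi k (Complex.I • h) (Complex.I • g) = xi k h g := by
  unfold xi
  simp
  ring

theorem xi_tame (k : Fin 2) (h : V 2) : xi k h (Complex.I • h) = ‖h k‖ ^ 2 := by
  unfold xi
  rw [← Complex.normSq_eq_norm_sq, Complex.normSq_apply]
  simp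

theorem polar_xi {k : Fin 2} {α β : (V 2) [⋀^Fin 2]→L[ℝ] ℝ} {A B A' B' : ℝ}
    (hα : ∀ h g, α ![h, g] = A * xi k h g + B * xi (1 - k) h g)
    (hβ : ∀ h g, β ![h, g] = A' * xi k h g + B' * xi (1 - k) h g)
    (h : A * B' + A' * B = 0) (e : Fin 4 → V 2) : polar α β e = 0 := by
  unfold polar
  simp only [hα, hβ, xi]
  linear_combination (
    (((e 0 k).re * (e 1 k).im - (e 0 k).im * (e 1 k).re) *
      ((e 2 (1 - k)).re * (e 3 (1 - k)).im - (e 2 (1 - k)).im * (e 3 (1 - k)).re) -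
    ((e 0 k).re * (e 2 k).im - (e 0 k).im * (e 2 k).re) *
      ((e 1 (1 - k)).re * (e 3 (1 - k)).im - (e 1 (1 - k)).im * (e 3 (1 - k)).re) +
    ((e 0 k).re * (e 3 k).im - (e 0 k).im * (e 3 k).re) *
      ((e 1 (1 - k)).re * (e 2 (1 - k)).im - (e 1 (1 - k)).im * (e 2 (1 - k)).re)) +
    (((e 2 k).re * (e 3 k).im - (e 2 k).im * (e 3 k).re) *
      ((e 0 (1 - k)).re * (e 1 (1 - k)).im - (e 0 (1 - k)).im * (e 1 (1 - k)).re) -
    ((e 1 k).re * (e 3 k).im - (e 1 k).im * (e 3 k).re) *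
      ((e 0 (1 - k)).re * (e 2 (1 - k)).im - (e 0 (1 - k)).im * (e 2 (1 - k)).re) +
    ((e 1 k).re * (e 2 k).im - (e 1 k).im * (e 2 k).re) *
      ((e 0 (1 - k)).re * (e 3 (1 - k)).im - (e 0 (1 - k)).im * (e 3 (1 - k)).re))) * h

theorem I_xi {k : Fin 2} {α : (V 2) [⋀^Fin 2]→L[ℝ] ℝ} {A B : ℝ}
    (hα : ∀ h g, α ![h, g] = A * xi k h g + B * xi (1 - k) h g) (h g : V 2) :
    α ![Complex.I • h, Complex.I • g] = α ![h, g] := by
  rw [hα, hα, xi_I, xi_I]

theorem pos_xi {k : Fin 2} {α : (V 2) [⋀^Fin 2]→L[ℝ] ℝ} {A B : ℝ}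
    (hα : ∀ h g, α ![h, g] = A * xi k h g + B * xi (1 - k) h g) (hA : 0 < A) (hB : 0 < B)
    {h : V 2} (hh : h ≠ 0) : 0 < α ![h, Complex.I • h] := by
  rw [hα, xi_tame, xi_tame]
  have h1 : 0 ≤ ‖h k‖ ^ 2 := by positivity
  have h2 : 0 ≤ ‖h (1 - k)‖ ^ 2 := by positivity
  by_contra hc
  have h3 := mul_nonneg hA.le h1
  have h4 := mul_nonneg hB.le h2
  have h5 : A * ‖h k‖ ^ 2 = 0 := by linarith
  have h6 : B * ‖h (1 - k)‖ ^ 2 = 0 := by linarith
  have h7 : h k = 0 := by simpa [hA.ne'] using h5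
  have h8 : h (1 - k) = 0 := by simpa [hB.ne'] using h6
  apply hh
  funext l
  fin_cases k <;> fin_cases l <;> simp at h7 h8 ⊢ <;> assumption

end Pool.Agent.X168.HA
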